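import Pool.Agent.Lib.lead.CXRat

set_option autoImplicit false

/-!
# Square matrices of polynomials, given by the lists of the terms of their entries

Definitions only.
-/

namespace Pool.Agent.L5helper60.MQ

open MvPolynomial

/-- The input: the number of the variables in unary, and the list of the rows of a matrix. A row is
the list of its entries, an entry is the list of its terms, a term is its rational coefficient and
the list of the exponents of the variables in unary. -/
abbrev Inp := List Unit × List (List (List (ℚ × List (List Unit))))

/-- The number of the variables. -/
def nv (M : Inp) : ℕ := M.1.length

/-- The number of the rows, which is the order of the matrix. -/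
def dim (M : Inp) : ℕ := M.2.length

/-- The list of the terms of an entry (missing entries are zero). -/
def ent (M : Inp) (s t : ℕ) : List (ℚ × List (List Unit)) := (M.2.getD s []).getD t []

/-- The exponent of the variable number `j` (missing exponents are zero). -/
def ex (e : List (List Unit)) (j : ℕ) : ℕ := (e.getD j []).length

/-- The polynomial matrix. -/
noncomputable def pol (M : Inp) :
    Matrix (Fin (dim M)) (Fin (dim M)) (MvPolynomial (Fin (nv M)) ℚ) :=
  Matrix.of fun s t => ((ent M s t).map fun m => C m.1 * ∏ j : Fin (nv M), X j ^ ex m.2 j).sum

end Pool.Agent.L5helper60.MQ
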