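import Pool.Agent.L5helper60.SR.Alg
import Pool.Agent.L5helper60.MO.Alg
import Pool.Agent.L5helper60.MQ.Defs

set_option autoImplicit false

/-!
# The algorithm
-/

namespace Pool.Agent.L5helper60.MQ

open Function
open Pool.Agent.Lib.CX Pool.Agent.Lib.helper22.CXDet
open Pool.Agent.Lib.Par (rk rk_eq pt_rk ls_opt)
open Pool.Agent.L5helper60.MO (rnk pt_rnk cv pt_cv)

/-- all terms -/
def ts (M : Inp) : List (ℚ × List (List Unit)) := M.2.flatten.flatten

/-- a common denominator -/
def cden (M : Inp) : ℕ := ((ts M).map fun m => m.1.den).prod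

/-- a coefficient times the common denominator -/
def ic (M : Inp) (q : ℚ) : ℤ := q.num * ((cden M / q.den : ℕ) : ℤ)

/-- the list of the unknowns -/
def us (M : Inp) : List (ℕ × ℕ × ℕ) :=
  ((List.range (dim M)).flatMap fun s => (List.range (dim M)).map fun u => (0, s, u)) ++
  (((List.range (dim M)).flatMap fun s => (List.range (dim M)).map fun u => (1, s, u)) ++
    ((List.range (nv M)).flatMap fun i => (List.range (nv M + 1)).map fun l => (2, i, l)))

/-- the exponents of a term, with one exponent decreased and one exponent increased -/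
def sh (M : Inp) (e : List (List Unit)) (i l : ℕ) : List ℕ :=
  (List.range (nv M)).map fun v => ex e v + (if l = v + 1 then 1 else 0) - (if v = i then 1 else 0)

/-- the list of the monomials of the equations -/
def ms (M : Inp) : List (List ℕ) := (ts M).flatMap fun m =>
  (List.range (nv M + 1)).flatMap fun i => (List.range (nv M + 1)).map fun l => sh M m.2 i l

/-- the coefficient of a monomial of an entry, times the common denominator -/
def cf (M : Inp) (μ : List ℕ) (s t : ℕ) : ℤ := ((ent M s t).map fun m =>
  if ∀ v < nv M, ex m.2 v = μ.getD v 0 then ic M m.1 else 0).sum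

/-- the coefficient of a monomial of the product of a variable and a derivative of an entry, times
the common denominator -/
def dc (M : Inp) (i l : ℕ) (μ : List ℕ) (s t : ℕ) : ℤ := ((ent M s t).map fun m =>
  if ∀ v < nv M, ex m.2 v + (if l = v + 1 then 1 else 0) = μ.getD v 0 + (if v = i then 1 else 0)
  then ic M m.1 * (ex m.2 i : ℤ) else 0).sum

/-- the coefficient of an unknown in an equation, times the common denominator -/
def ce (M : Inp) (u : ℕ × ℕ × ℕ) (μ : List ℕ) (s t : ℕ) : ℤ :=
  if u.1 = 0 then (if s = u.2.1 then cf M μ u.2.2 t else 0) else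
  if u.1 = 1 then (if t = u.2.2 then cf M μ s u.2.1 else 0) else - dc M u.2.1 u.2.2 μ s t

/-- the scalar product of two columns of the equations -/
def gr₀ (M : Inp) (u u' : ℕ × ℕ × ℕ) : ℤ :=
  ((ms M).map fun μ => ((List.range (dim M)).map fun s =>
    ((List.range (dim M)).map fun t => ce M u μ s t * ce M u' μ s t).sum).sum).sum

/-- the scalar product of two columns -/
def gr (M : Inp) (x : List ℕ) (u u' : ℕ × ℕ × ℕ) : ℤ :=
  gr₀ M u u' + ((List.range (nv M)).map fun i => cv x u i * cv x u' i).sum

/-- the table of the scalar products of the columns -/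
def gt (M : Inp) (x : List ℕ) : List (List ℤ) := (us M).map fun u => (us M).map fun u' => gr M x u u'

/-- the table of the scalar products of the columns of the equations -/
def gt₀ (M : Inp) : List (List ℤ) := (us M).map fun u => (us M).map fun u' => gr₀ M u u'

/-- the value of a term without its coefficient -/
def mv (k : ℕ) (e : List (List Unit)) (x : List ℕ) : ℕ :=
  ((List.range k).map fun v => x.getD v 0 ^ ex e v).prod

/-- the table of the matrix for given values of the variables, times the common denominator -/
def et (M : Inp) (x : List ℕ) : List (List ℤ) := tb (dim M) fun s t =>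
  ((ent M s t).map fun m => ic M m.1 * (mv (nv M) m.2 x : ℤ)).sum

/-- the potential -/
def ps (M : Inp) (x : List ℕ) : ℕ := (dim M + 1) * rk (gt M x) + rnk (dim M) (et M x)

/-- a bound for the exponents -/
def dg (M : Inp) : ℕ := ((ts M).flatMap fun m => m.2.flatten).length

/-- the bound for the values of the variables -/
def nb (M : Inp) : ℕ := nv M + 1 + (dim M + 1) * dg M

/-- the number of steps -/
def it (M : Inp) : ℕ := (dim M + 1) * ((us M).length + 1)

/-- the points which differ in at most one coordinate -/
def stp (M : Inp) (x : List ℕ) : List (List ℕ) :=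
  x :: (List.range (nv M)).flatMap fun i => (List.range (nb M + 1)).map fun v => x.set i v

/-- the points which differ in at most `c` coordinates -/
def cd : ℕ → Inp → List ℕ → List (List ℕ)
  | 0, _, x => [x]
  | c + 1, M, x => (cd c M x).flatMap (stp M)

/-- the substitution found by the local search -/
def sol (c : ℕ) (M : Inp) : List ℕ :=
  (fun x => ((cd (c + 1) M x).filter (ps M x < ps M ·)).headD x)^[it M] (List.replicate (nv M) 0)

/-- the test of the codimension of the tangent space -/
def flg (c : ℕ) (M : Inp) : Bool := decide (nv M + rk (gt₀ M) ≤ rk (gt M (sol c M)) + c)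

/-- the algorithm for the decision problem -/
def alg (c : ℕ) (M : Inp) : Bool :=
  flg c M && decide (rnk (dim M) (et M (sol c M)) < dim M)

section

variable {α : Type} [Enc α] {L : α → Inp} {i j k l : α → ℕ} {x μ : α → List ℕ}
  {u v : α → ℕ × ℕ × ℕ} {e : α → List (List Unit)} {q : α → ℚ}

@[fun_prop] lemma pt_nv (hL : PT L) : PT fun a => nv (L a) := by unfold nv; fun_prop

@[fun_prop] lemma pb_nv (hL : PT L) : PB fun a => nv (L a) := by unfold nv; fun_prop

@[fun_prop] lemma pt_dim (hL : PT L) : PT fun a => dim (L a) := by unfold dim; fun_prop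

@[fun_prop] lemma pb_dim (hL : PT L) : PB fun a => dim (L a) := by unfold dim; fun_prop

@[fun_prop] lemma pt_ts (hL : PT L) : PT fun a => ts (L a) := by unfold ts; fun_prop

@[fun_prop] lemma pt_ent (hL : PT L) (hi : PT i) (hj : PT j) :
    PT fun a => ent (L a) (i a) (j a) := by unfold ent; fun_prop

@[fun_prop] lemma pt_ex (he : PT e) (hi : PT i) : PT fun a => ex (e a) (i a) := by
  unfold ex; fun_prop

@[fun_prop] lemma pb_ex (he : PT e) (hi : PT i) : PB fun a => ex (e a) (i a) := by
  unfold ex; fun_prop

attribute [local irreducible] nv dim ts ent ex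

@[fun_prop] lemma pt_cden (hL : PT L) : PT fun a => cden (L a) := by unfold cden; fun_prop

attribute [local irreducible] cden

@[fun_prop] lemma pt_ic (hL : PT L) (hq : PT q) : PT fun a => ic (L a) (q a) := by
  unfold ic; fun_prop

attribute [local irreducible] ic

@[fun_prop] lemma pt_us (hL : PT L) : PT fun a => us (L a) := by unfold us; fun_prop

@[fun_prop] lemma pt_sh (hL : PT L) (he : PT e) (hi : PT i) (hj : PT j) :
    PT fun a => sh (L a) (e a) (i a) (j a) := by unfold sh; fun_prop

attribute [local irreducible] us sh

@[fun_prop] lemma pt_ms (hL : PT L) : PT fun a => ms (L a) := by unfold ms; fun_prop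

@[fun_prop] lemma pt_cf (hL : PT L) (hm : PT μ) (hi : PT i) (hj : PT j) :
    PT fun a => cf (L a) (μ a) (i a) (j a) := by unfold cf; fun_prop

@[fun_prop] lemma pt_dc (hL : PT L) (hm : PT μ) (hi : PT i) (hj : PT j) (hk : PT k) (hl : PT l) :
    PT fun a => dc (L a) (k a) (l a) (μ a) (i a) (j a) := by unfold dc; fun_prop

attribute [local irreducible] ms cf dc

@[fun_prop] lemma pt_ce (hL : PT L) (hu : PT u) (hm : PT μ) (hj : PT j) (hk : PT k) :
    PT fun a => ce (L a) (u a) (μ a) (j a) (k a) := by unfold ce; fun_prop

attribute [local irreducible] ce cv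

@[fun_prop] lemma pt_gr₀ (hL : PT L) (hu : PT u) (hv : PT v) :
    PT fun a => gr₀ (L a) (u a) (v a) := by unfold gr₀; fun_prop

attribute [local irreducible] gr₀

@[fun_prop] lemma pt_gr (hL : PT L) (hx : PT x) (hu : PT u) (hv : PT v) :
    PT fun a => gr (L a) (x a) (u a) (v a) := by unfold gr; fun_prop

attribute [local irreducible] gr

@[fun_prop] lemma pt_gt₀ (hL : PT L) : PT fun a => gt₀ (L a) := by
  unfold gt₀; fun_prop

@[fun_prop] lemma pt_gt (hL : PT L) (hx : PT x) : PT fun a => gt (L a) (x a) := by
  unfold gt; fun_prop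

@[fun_prop] lemma pt_mv (hk : PT k) (hb : PB k) (he : PT e) (hx : PT x) :
    PT fun a => mv (k a) (e a) (x a) := by unfold mv; fun_prop

attribute [local irreducible] gt rnk mv tb

@[fun_prop] lemma pt_et (hL : PT L) (hx : PT x) : PT fun a => et (L a) (x a) := by
  unfold et; fun_prop

attribute [local irreducible] et

@[fun_prop] lemma pt_ps (hL : PT L) (hx : PT x) : PT fun a => ps (L a) (x a) := by
  unfold ps; fun_prop

@[fun_prop] lemma pt_dg (hL : PT L) : PT fun a => dg (L a) := by unfold dg; fun_prop

@[fun_prop] lemma pb_dg (hL : PT L) : PB fun a => dg (L a) := by unfold dg; fun_prop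

attribute [local irreducible] dg

@[fun_prop] lemma pt_nb (hL : PT L) : PT fun a => nb (L a) := by unfold nb; fun_prop

@[fun_prop] lemma pb_nb (hL : PT L) : PB fun a => nb (L a) := by unfold nb; fun_prop

@[fun_prop] lemma pt_it (hL : PT L) : PT fun a => it (L a) := by unfold it; fun_prop

@[fun_prop] lemma pb_it (hL : PT L) : PB fun a => it (L a) := by unfold it; fun_prop

attribute [local irreducible] ps nb it

@[fun_prop] lemma pt_stp (hL : PT L) (hx : PT x) : PT fun a => stp (L a) (x a) := by
  unfold stp; fun_prop

attribute [local irreducible] stp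

lemma pt_cd (c : ℕ) : ∀ {α : Type} [Enc α] {L : α → Inp} {x : α → List ℕ}, PT L → PT x →
    PT fun a => cd c (L a) (x a) := by
  induction c with
  | zero =>
    intro α _ L x hL hx
    unfold cd
    fun_prop
  | succ c ih =>
    intro α _ L x hL hx
    have h1 := ih hL hx
    unfold cd
    fun_prop

end

end Pool.Agent.L5helper60.MQ
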