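import Pool.Agent.L5helper60.MO.Rnk

/-!
# Ranks of polynomial matrices of bounded degree
-/

set_option autoImplicit false

namespace Pool.Agent.L5helper60.MQ

open MvPolynomial
open Pool.Agent.L5helper60.MO (pt pt_self le_rank_iff minor_eq special grid)

lemma degreeOf_det_le {k ρ d : ℕ} (N : Matrix (Fin ρ) (Fin ρ) (MvPolynomial (Fin k) ℚ))
    (hN : ∀ s t i, (N s t).degreeOf i ≤ d) (i : Fin k) : N.det.degreeOf i ≤ ρ * d := by
  rw [Matrix.det_apply]
  refine (degreeOf_sum_le _ _ _).trans (Finset.sup_le fun σ _ => ?_)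
  have h1 : (∏ j, N (σ j) j).degreeOf i ≤ ρ * d := by
    refine (degreeOf_prod_le _ _ _).trans ?_
    refine (Finset.sum_le_sum fun j _ => hN (σ j) j i).trans ?_
    simp
  rcases Int.units_eq_one_or (Equiv.Perm.sign σ) with h | h <;> rw [h]
  · simpa using h1
  · simpa [degreeOf_neg] using h1

/-- The rank is not larger at points in general position than on a large grid. -/
theorem rank_grid {k : ℕ} {a b : Type} [Fintype a] [Fintype b] {J : Finset (Fin k)}
    {x : Fin k → ℚ} {D ρ d : ℕ} {N : Matrix a b (MvPolynomial (Fin k) ℚ)}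
    (hN : ∀ s t i, (N s t).degreeOf i ≤ d) (hD : (ρ + 1) * d ≤ D)
    (h : ∀ m : {j // j ∈ J} → ℕ, (∀ j, m j ≤ D) →
      (N.map (aeval (pt J x fun j => (m j : ℚ)))).rank ≤ ρ) (l : {j // j ∈ J} → ℂ) :
    (N.map (aeval (pt J x l))).rank ≤ ρ := by
  by_contra h0
  rw [not_le, ← Nat.succ_le_iff, le_rank_iff] at h0
  obtain ⟨f, g, h1⟩ := h0
  apply h1
  rw [minor_eq]
  refine grid (D := D) (fun i => (degreeOf_det_le (N.submatrix f g)
    (fun s t => hN (f s) (g t)) i).trans hD) (fun m hm => ?_) l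
  rw [← minor_eq]
  by_contra h2
  have h3 := (le_rank_iff _ _).2 ⟨f, g, h2⟩
  have h4 := h m hm
  omega

/-- Two ranks which are both large at points in general position are both large at a point of a
large grid. -/
theorem rank_grid₂ {k : ℕ} {a b a' b' : Type} [Fintype a] [Fintype b] [Fintype a'] [Fintype b']
    {J : Finset (Fin k)} {x : Fin k → ℚ} {D ρ ρ' d : ℕ} {N : Matrix a b (MvPolynomial (Fin k) ℚ)}
    {N' : Matrix a' b' (MvPolynomial (Fin k) ℚ)}
    (hN : ∀ s t i, (N s t).degreeOf i ≤ d) (hN' : ∀ s t i, (N' s t).degreeOf i ≤ 1)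
    (hD : ρ' + (ρ + 1) * d ≤ D) (hx : ρ' ≤ (N'.map (aeval x)).rank)
    (h : ∀ m : {j // j ∈ J} → ℕ, (∀ j, m j ≤ D) →
      ρ' ≤ (N'.map (aeval (pt J x fun j => (m j : ℚ)))).rank →
      (N.map (aeval (pt J x fun j => (m j : ℚ)))).rank ≤ ρ) {l : {j // j ∈ J} → ℂ}
    (hl : AlgebraicIndependent ℚ l) : (N.map (aeval (pt J x l))).rank ≤ ρ := by
  by_contra h0
  rw [not_le, ← Nat.succ_le_iff, le_rank_iff] at h0
  obtain ⟨f, g, h1⟩ := h0
  obtain ⟨f', g', h1'⟩ := (le_rank_iff _ _).1 hx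
  rw [minor_eq] at h1 h1'
  have h2 : aeval (pt J x l) (N'.submatrix f' g').det ≠ 0 := by
    intro h3
    have := special hl h3 (fun j => x j)
    rw [pt_self] at this
    exact h1' this
  have h3 : aeval (pt J x l) ((N'.submatrix f' g').det * (N.submatrix f g).det) = 0 := by
    refine grid (D := D) (fun i => ?_) (fun m hm => ?_) l
    · refine (degreeOf_mul_le _ _ _).trans (le_trans (add_le_add
        (degreeOf_det_le _ (fun s t => hN' (f' s) (g' t)) i)
        (degreeOf_det_le _ (fun s t => hN (f s) (g t)) i)) ?_)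
      rw [mul_one]
      exact hD
    · rw [map_mul]
      by_contra h4
      obtain ⟨h5, h6⟩ := mul_ne_zero_iff.1 h4
      rw [← minor_eq] at h5 h6
      have h7 := h m hm ((le_rank_iff _ _).2 ⟨f', g', h5⟩)
      have h8 := (le_rank_iff _ _).2 ⟨f, g, h6⟩
      omega
  rw [map_mul] at h3
  rcases mul_eq_zero.1 h3 with h4 | h4
  · exact h2 h4
  · exact h1 h4

end Pool.Agent.L5helper60.MQ
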