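import Pool.Agent.L5helper60.MQ.Tan
import Pool.Agent.L5helper60.MQ.Rnk

/-!
# Local optima of the dimension of the orbit
-/

set_option autoImplicit false

namespace Pool.Agent.L5helper60.MQ

open Module MvPolynomial
open Pool.Agent.L5helper60.MO (pt pt_self minor_eq rank_special exists_generic mins
  der_mins transversal chain)

variable {n k : ℕ}

/-! ### The matrix of the vector fields -/

/-- the polynomial matrix of the vector fields -/
noncomputable def Rp (M : Matrix (Fin n) (Fin n) (MvPolynomial (Fin k) ℚ)) :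
    Matrix (Fin k) (Fin (finrank ℚ (Sol M))) (MvPolynomial (Fin k) ℚ) :=
  Matrix.of fun i l => C (Cm (sb M l : Un n k → ℚ) i 0) +
    ∑ j : Fin k, C (Cm (sb M l : Un n k → ℚ) i j.succ) * X j

variable {S : Type} [CommRing S] [Algebra ℚ S]

lemma Rp_map (M : Matrix (Fin n) (Fin n) (MvPolynomial (Fin k) ℚ)) (z : Fin k → S) (i : Fin k)
    (l : Fin (finrank ℚ (Sol M))) : (Rp M).map (aeval z) i l =
      dir z (fun u => algebraMap ℚ S ((sb M l : Un n k → ℚ) u)) i := by
  simp [Rp, dir, Cm]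

lemma Rp_mulVec (M : Matrix (Fin n) (Fin n) (MvPolynomial (Fin k) ℚ)) (z : Fin k → S)
    (a : Fin (finrank ℚ (Sol M)) → S) : ((Rp M).map (aeval z)).mulVec a =
      dir z (fun u => ∑ l, a l * algebraMap ℚ S ((sb M l : Un n k → ℚ) u)) := by
  have h1 : (fun u => ∑ l, a l * algebraMap ℚ S ((sb M l : Un n k → ℚ) u)) =
      ∑ l, a l • fun u => algebraMap ℚ S ((sb M l : Un n k → ℚ) u) := by
    funext u
    simp
  rw [h1, map_sum]
  funext i
  rw [Finset.sum_apply, Matrix.mulVec, dotProduct]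
  refine Finset.sum_congr rfl fun l _ => ?_
  rw [Rp_map, map_smul, Pi.smul_apply, smul_eq_mul, mul_comm]

lemma Rp_degree (M : Matrix (Fin n) (Fin n) (MvPolynomial (Fin k) ℚ)) (s : Fin k)
    (t : Fin (finrank ℚ (Sol M))) (i : Fin k) : (Rp M s t).degreeOf i ≤ 1 := by
  show degreeOf i (C (Cm (sb M t : Un n k → ℚ) s 0) +
    ∑ j : Fin k, C (Cm (sb M t : Un n k → ℚ) s j.succ) * X j) ≤ 1
  refine (degreeOf_add_le _ _ _).trans (max_le (by rw [degreeOf_C]; omega) ?_)
  refine (degreeOf_sum_le _ _ _).trans (Finset.sup_le fun j _ => ?_)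
  refine (degreeOf_C_mul_le _ _ _).trans ?_
  by_cases h : i = j
  · subst h
    rw [degreeOf_X_self]
  · rw [degreeOf_X_of_ne h]
    omega

/-- the rational infinitesimal symmetries give the vectors at a rational point -/
lemma range_Rp (M : Matrix (Fin n) (Fin n) (MvPolynomial (Fin k) ℚ)) (x : Fin k → ℚ) :
    LinearMap.range ((Rp M).map (aeval x)).mulVecLin = (Sol M).map (dir x) := by
  ext v
  rw [LinearMap.mem_range, Submodule.mem_map]
  constructor
  · rintro ⟨a, rfl⟩
    refine ⟨∑ l, a l • (sb M l : Un n k → ℚ), (Sol M).sum_mem fun l _ =>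
      (Sol M).smul_mem _ (sb M l).2, ?_⟩
    rw [Matrix.mulVecLin_apply, Rp_mulVec]
    congr 1
    funext u
    simp
  · rintro ⟨w, hw, rfl⟩
    refine ⟨(sb M).repr ⟨w, hw⟩, ?_⟩
    rw [Matrix.mulVecLin_apply, Rp_mulVec]
    congr 1
    funext u
    have h1 := congrArg (fun v : Sol M => (v : Un n k → ℚ) u) ((sb M).sum_repr ⟨w, hw⟩)
    simp only [Submodule.coe_sum, Submodule.coe_smul, Finset.sum_apply, Pi.smul_apply,
      smul_eq_mul] at h1
    simpa using h1

/-! ### Stability of the ideals of minors -/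

/-- the vector fields -/
noncomputable def VF (M : Matrix (Fin n) (Fin n) (MvPolynomial (Fin k) ℚ))
    (l : Fin (finrank ℚ (Sol M))) :
    Derivation ℚ (MvPolynomial (Fin k) ℚ) (MvPolynomial (Fin k) ℚ) :=
  mkDerivation ℚ fun i => Rp M i l

lemma VF_X (M : Matrix (Fin n) (Fin n) (MvPolynomial (Fin k) ℚ)) (l : Fin (finrank ℚ (Sol M)))
    (i : Fin k) : VF M l (X i) = Rp M i l := by
  rw [VF, mkDerivation_X]

lemma map_X (N : Matrix (Fin n) (Fin n) (MvPolynomial (Fin k) ℚ)) :
    N.map (aeval (X : Fin k → MvPolynomial (Fin k) ℚ)) = N := by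
  refine Matrix.ext fun s t => ?_
  rw [Matrix.map_apply, aeval_X_left_apply]

/-- **The ideals of minors are stable.** -/
lemma VF_mins (M : Matrix (Fin n) (Fin n) (MvPolynomial (Fin k) ℚ)) (ρ : ℕ)
    (l : Fin (finrank ℚ (Sol M))) (f : MvPolynomial (Fin k) ℚ) (hf : f ∈ mins ρ M) :
    VF M l f ∈ mins ρ M := by
  refine der_mins (VF M l)
    (P := Pm fun u => algebraMap ℚ (MvPolynomial (Fin k) ℚ) ((sb M l : Un n k → ℚ) u))
    (Q := Qm fun u => algebraMap ℚ (MvPolynomial (Fin k) ℚ) ((sb M l : Un n k → ℚ) u)) ?_ hf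
  have h1 := Sol_map (sb M l).2 (X : Fin k → MvPolynomial (Fin k) ℚ)
  rw [el_sum, sub_eq_zero, map_X] at h1
  rw [h1]
  have h2 := chain_matrix M (VF M l) (X : Fin k → MvPolynomial (Fin k) ℚ)
  rw [map_X] at h2
  rw [h2]
  refine Finset.sum_congr rfl fun i _ => ?_
  rw [VF_X]
  rfl

/-! ### Coordinates which are independent of the tangent space -/

/-- No nonzero tangent vector at `x` is supported in `J`. -/
def Ind (M : Matrix (Fin n) (Fin n) (MvPolynomial (Fin k) ℚ)) (x : Fin k → ℚ)
    (J : Finset (Fin k)) : Prop :=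
  ∀ v ∈ (Sol M).map (dir x), (∀ i ∉ J, v i = 0) → v = 0

/-- the coordinates outside of `J` -/
def off {K : Type} [Field K] (J : Finset (Fin k)) : (Fin k → K) →ₗ[K] ({i // i ∉ J} → K) :=
  LinearMap.funLeft K K Subtype.val

lemma fr_map {K V W : Type} [Field K] [AddCommGroup V] [Module K V] [FiniteDimensional K V]
    [AddCommGroup W] [Module K W] (N : Submodule K V) (p : V →ₗ[K] W) :
    finrank K N = finrank K (N.map p) + finrank K (N ⊓ LinearMap.ker p : Submodule K V) := by
  have := (p ∘ₗ N.subtype).finrank_range_add_finrank_ker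
  rw [LinearMap.range_comp, Submodule.range_subtype, LinearMap.ker_comp,
    ← Submodule.finrank_map_subtype_eq N, Submodule.map_comap_subtype] at this
  exact this.symm

lemma rank_off {K : Type} [Field K] {m : ℕ} (J : Finset (Fin k)) (N : Matrix (Fin k) (Fin m) K) :
    (N.submatrix (Subtype.val : {i // i ∉ J} → Fin k) id).rank =
      finrank K ((LinearMap.range N.mulVecLin).map (off J)) := by
  rw [Matrix.rank, ← LinearMap.range_comp]
  rfl

/-- **At most `c` coordinates are independent of the tangent space at a local optimum.** -/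
theorem ind_card {M : Matrix (Fin n) (Fin n) (MvPolynomial (Fin k) ℚ)} {c D : ℕ}
    (hM : Modality (fun z : Fin k → ℂ => M.map (aeval z)) c)
    (hD : k + 1 ≤ D) {x : Fin k → ℚ}
    (hx : ∀ J : Finset (Fin k), J.card ≤ c + 1 → ∀ m : {j // j ∈ J} → ℕ, (∀ j, m j ≤ D) →
      finrank ℚ ((Sol M).map (dir (pt J x fun j => (m j : ℚ)))) ≤
        finrank ℚ ((Sol M).map (dir x)))
    {J : Finset (Fin k)} (hJ : Ind M x J) : J.card ≤ c := by
  by_contra hc
  obtain ⟨J', hJJ, hJ'⟩ := Finset.exists_subset_card_eq (show c + 1 ≤ J.card by omega)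
  have hI : Ind M x J' := fun v hv h => hJ v hv fun i hi => h i fun hi' => hi (hJJ hi')
  obtain ⟨K, hK, hM⟩ := hM
  obtain ⟨l, hl⟩ := exists_generic K hK {j // j ∈ J'}
  have hlQ : AlgebraicIndependent ℚ l :=
    hl.restrictScalars (algebraMap ℚ K).injective
  obtain ⟨w, hw1, hw2, hw3⟩ := tangent M hJ' hl x (hM _)
  obtain ⟨a, ha⟩ := base_change M w hw1
  -- the rank at `x`
  have h1 : ((Rp M).map (aeval x)).rank = finrank ℚ ((Sol M).map (dir x)) := by
    rw [Matrix.rank, range_Rp]
  have h2 : (((Rp M).submatrix (Subtype.val : {i // i ∉ J'} → Fin k) id).map (aeval x)).rank =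
      finrank ℚ ((Sol M).map (dir x)) := by
    rw [← Matrix.submatrix_map, rank_off, range_Rp]
    have h3 := fr_map ((Sol M).map (dir x)) (off (K := ℚ) J')
    have h4 : (Sol M).map (dir x) ⊓ LinearMap.ker (off (K := ℚ) J') = ⊥ := by
      rw [eq_bot_iff]
      rintro v ⟨hv1, hv2⟩
      refine hI v hv1 fun i hi => ?_
      exact congrFun (LinearMap.mem_ker.1 hv2) ⟨i, hi⟩
    rw [h4, finrank_bot] at h3
    omega
  -- the rank at the generic point
  have h3 := rank_special (x := x) hlQ ((Rp M).submatrix (Subtype.val : {i // i ∉ J'} → Fin k) id)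
  have h4 : ((Rp M).map (aeval (pt J' x l))).rank ≤ finrank ℚ ((Sol M).map (dir x)) := by
    refine rank_grid (D := D) (Rp_degree M) ?_ (fun m hm => ?_) l
    · have := Submodule.finrank_le ((Sol M).map (dir x))
      rw [Module.finrank_fin_fun] at this
      omega
    · rw [Matrix.rank, range_Rp]
      exact hx J' hJ'.le m hm
  rw [h2, ← Matrix.submatrix_map, rank_off] at h3
  have h5 := fr_map (LinearMap.range ((Rp M).map (aeval (pt J' x l))).mulVecLin)
    (off (K := ℂ) J')
  rw [Matrix.rank] at h4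
  have h6 : finrank ℂ (LinearMap.range ((Rp M).map (aeval (pt J' x l))).mulVecLin ⊓
      LinearMap.ker (off (K := ℂ) J') : Submodule ℂ (Fin k → ℂ)) = 0 := by omega
  rw [Submodule.finrank_eq_zero] at h6
  apply hw3
  have h7 : dir (pt J' x l) w ∈ (LinearMap.range ((Rp M).map (aeval (pt J' x l))).mulVecLin ⊓
      LinearMap.ker (off (K := ℂ) J') : Submodule ℂ (Fin k → ℂ)) := by
    refine ⟨⟨a, ?_⟩, ?_⟩
    · rw [Matrix.mulVecLin_apply, Rp_mulVec]
      congr 1
      funext u
      rw [ha]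
      rfl
    · rw [SetLike.mem_coe, LinearMap.mem_ker]
      funext i
      exact hw2 i.1 i.2
  rw [h6] at h7
  exact h7

lemma exists_maximal_ind (M : Matrix (Fin n) (Fin n) (MvPolynomial (Fin k) ℚ))
    (x : Fin k → ℚ) :
    ∃ J : Finset (Fin k), Ind M x J ∧ ∀ i, i ∉ J → ¬ Ind M x (insert i J) := by
  classical
  obtain ⟨J, hJ, hmax⟩ := Finset.exists_max_image (Finset.univ.filter fun J => Ind M x J)
    Finset.card ⟨∅, by
      rw [Finset.mem_filter]
      exact ⟨Finset.mem_univ _, fun v _ h => funext fun i => h i (Finset.notMem_empty i)⟩⟩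
  refine ⟨J, (Finset.mem_filter.1 hJ).2, fun i hi h => ?_⟩
  have h1 := hmax _ (Finset.mem_filter.2 ⟨Finset.mem_univ _, h⟩)
  rw [Finset.card_insert_of_notMem hi] at h1
  omega

lemma ind_vector {M : Matrix (Fin n) (Fin n) (MvPolynomial (Fin k) ℚ)} {x : Fin k → ℚ}
    {J : Finset (Fin k)} (hJ : Ind M x J) {i' : Fin k} (h1 : ¬ Ind M x (insert i' J)) :
    ∃ v ∈ (Sol M).map (dir x), (∀ i ∉ insert i' J, v i = 0) ∧ v i' ≠ 0 := by
  rw [Ind] at h1
  push Not at h1
  obtain ⟨v, hv, hv0, hvne⟩ := h1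
  refine ⟨v, hv, hv0, fun h2 => hvne ?_⟩
  refine hJ v hv fun i h => ?_
  by_cases h3 : i = i'
  · rw [h3, h2]
  · exact hv0 i (by simp [h3, h])

/-- The number of coordinates which are independent of the tangent space. -/
lemma card_of_codim {M : Matrix (Fin n) (Fin n) (MvPolynomial (Fin k) ℚ)} {x : Fin k → ℚ}
    {c : ℕ} (h : k ≤ finrank ℚ ((Sol M).map (dir x)) + c) {J : Finset (Fin k)}
    (hJ : Ind M x J) : J.card ≤ c := by
  have h3 := fr_map ((Sol M).map (dir x)) (off (K := ℚ) J)
  have h4 : (Sol M).map (dir x) ⊓ LinearMap.ker (off (K := ℚ) J) = ⊥ := by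
    rw [eq_bot_iff]
    rintro v ⟨hv1, hv2⟩
    refine hJ v hv1 fun i hi => ?_
    exact congrFun (LinearMap.mem_ker.1 hv2) ⟨i, hi⟩
  rw [h4, finrank_bot] at h3
  have h5 := Submodule.finrank_le (((Sol M).map (dir x)).map (off (K := ℚ) J))
  rw [Module.finrank_fintype_fun_eq_card] at h5
  have h6 : Fintype.card {i // i ∉ J} + J.card = k := by
    rw [Fintype.card_subtype_compl, Fintype.card_fin, Fintype.card_coe]
    have := J.card_le_univ
    rw [Fintype.card_fin] at this
    omega
  omega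

/-- The codimension of the tangent space. -/
lemma codim_of_card {M : Matrix (Fin n) (Fin n) (MvPolynomial (Fin k) ℚ)} {x : Fin k → ℚ}
    {c : ℕ} (h : ∀ J, Ind M x J → J.card ≤ c) : k ≤ finrank ℚ ((Sol M).map (dir x)) + c := by
  classical
  obtain ⟨J, hJ, hmax⟩ := exists_maximal_ind M x
  have h1 : ((Sol M).map (dir x)).map (off (K := ℚ) J) = ⊤ := by
    rw [eq_top_iff, ← (Pi.basisFun ℚ {i // i ∉ J}).span_eq, Submodule.span_le]
    rintro _ ⟨i, rfl⟩
    obtain ⟨v, hv, hv0, hvi⟩ := ind_vector hJ (hmax i.1 i.2)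
    refine ⟨(v i.1)⁻¹ • v, Submodule.smul_mem _ _ hv, ?_⟩
    rw [Pi.basisFun_apply]
    funext j
    show (v i.1)⁻¹ * v j.1 = _
    by_cases h2 : j = i
    · subst h2
      rw [Pi.single_eq_same, inv_mul_cancel₀ hvi]
    · rw [Pi.single_eq_of_ne h2, hv0 j.1, mul_zero]
      rw [Finset.mem_insert]
      rintro (h3 | h3)
      · exact h2 (Subtype.ext h3)
      · exact j.2 h3
  have h2 := Submodule.finrank_map_le (off (K := ℚ) J) ((Sol M).map (dir x))
  rw [h1, finrank_top, Module.finrank_fintype_fun_eq_card] at h2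
  have h6 : Fintype.card {i // i ∉ J} + J.card = k := by
    rw [Fintype.card_subtype_compl, Fintype.card_fin, Fintype.card_coe]
    have := J.card_le_univ
    rw [Fintype.card_fin] at this
    omega
  have h7 := h J hJ
  omega

/-- local optima of the potential are local optima of the dimension of the orbit -/
lemma opt_dim {M : Matrix (Fin n) (Fin n) (MvPolynomial (Fin k) ℚ)} {c D : ℕ} {x : Fin k → ℚ}
    (hx : ∀ J : Finset (Fin k), J.card ≤ c + 1 → ∀ m : {j // j ∈ J} → ℕ, (∀ j, m j ≤ D) →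
      (n + 1) * finrank ℚ ((Sol M).map (dir (pt J x fun j => (m j : ℚ)))) +
        (M.map (aeval (pt J x fun j => (m j : ℚ)))).rank ≤
      (n + 1) * finrank ℚ ((Sol M).map (dir x)) + (M.map (aeval x)).rank) :
    ∀ J : Finset (Fin k), J.card ≤ c + 1 → ∀ m : {j // j ∈ J} → ℕ, (∀ j, m j ≤ D) →
      finrank ℚ ((Sol M).map (dir (pt J x fun j => (m j : ℚ)))) ≤
        finrank ℚ ((Sol M).map (dir x)) := by
  have hn' : (M.map (aeval x)).rank ≤ n := by
    have := Matrix.rank_le_card_height (M.map (aeval x))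
    rwa [Fintype.card_fin] at this
  intro J hJ m hm
  have h1 := hx J hJ m hm
  by_contra h2
  rw [not_le] at h2
  have h3 := Nat.mul_le_mul_left (n + 1) (Nat.succ_le_of_lt h2)
  rw [Nat.mul_succ] at h3
  omega

/-- **Local optima of the dimension of the orbit.** If the tangent space at a local optimum has
codimension at most `c`, then the rank is the largest rank. -/
theorem opt {M : Matrix (Fin n) (Fin n) (MvPolynomial (Fin k) ℚ)} {c d D : ℕ}
    (hd : ∀ s t i, (M s t).degreeOf i ≤ d) (hD : k + 1 + (n + 1) * d ≤ D) {x : Fin k → ℚ}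
    (hcd : k ≤ finrank ℚ ((Sol M).map (dir x)) + c)
    (hx : ∀ J : Finset (Fin k), J.card ≤ c + 1 → ∀ m : {j // j ∈ J} → ℕ, (∀ j, m j ≤ D) →
      (n + 1) * finrank ℚ ((Sol M).map (dir (pt J x fun j => (m j : ℚ)))) +
        (M.map (aeval (pt J x fun j => (m j : ℚ)))).rank ≤
      (n + 1) * finrank ℚ ((Sol M).map (dir x)) + (M.map (aeval x)).rank)
    (y : Fin k → ℚ) : (M.map (aeval y)).rank ≤ (M.map (aeval x)).rank := by
  classical
  have hn' : (M.map (aeval x)).rank ≤ n := by
    have := Matrix.rank_le_card_height (M.map (aeval x))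
    rwa [Fintype.card_fin] at this
  have hk' : finrank ℚ ((Sol M).map (dir x)) ≤ k := by
    have := Submodule.finrank_le ((Sol M).map (dir x))
    rwa [Module.finrank_fin_fun] at this
  obtain ⟨J, hJ, hmax⟩ := exists_maximal_ind M x
  have hc := card_of_codim hcd hJ
  generalize hr : (M.map (aeval x)).rank = r at *
  obtain ⟨τ, hτ⟩ := exists_generic (algebraMap ℚ ℂ).fieldRange (by
    have : ((algebraMap ℚ ℂ).fieldRange : Set ℂ) = Set.range (algebraMap ℚ ℂ) := by
      ext; simp
    rw [this]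
    exact Set.countable_range _) {j // j ∈ J}
  have hτQ : AlgebraicIndependent ℚ τ :=
    hτ.restrictScalars (algebraMap ℚ (algebraMap ℚ ℂ).fieldRange).injective
  -- the unit vectors
  have hunit : ∀ i' : Fin k, ∃ (a : Fin (finrank ℚ (Sol M)) → ℚ) (α : Fin k → ℚ),
      (∀ i ∉ J, α i = 0) ∧
      ∀ i, ((Rp M).map (aeval x)).mulVec a i + α i = if i = i' then 1 else 0 := by
    intro i'
    by_cases hi : i' ∈ J
    · refine ⟨0, Pi.single i' 1, fun i h => ?_, fun i => ?_⟩
      · rw [Pi.single_eq_of_ne]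
        rintro rfl
        exact h hi
      · rw [Matrix.mulVec_zero, Pi.zero_apply, zero_add, Pi.single_apply]
    · obtain ⟨v, hv, hv0, hvi⟩ := ind_vector hJ (hmax i' hi)
      rw [← range_Rp] at hv
      obtain ⟨a, ha⟩ := hv
      rw [Matrix.mulVecLin_apply] at ha
      refine ⟨(v i')⁻¹ • a, fun i => if i ∈ J then - ((v i')⁻¹ * v i) else 0, fun i h => if_neg h,
        fun i => ?_⟩
      rw [Matrix.mulVec_smul, ha, Pi.smul_apply, smul_eq_mul]
      beta_reduce
      by_cases h3 : i = i'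
      · subst h3
        rw [if_neg hi, if_pos rfl, inv_mul_cancel₀ hvi, add_zero]
      · rw [if_neg h3]
        by_cases h4 : i ∈ J
        · rw [if_pos h4]
          ring
        · rw [if_neg h4, hv0 i (by simp [h3, h4])]
          ring
  choose a α hα ha using hunit
  -- the minors vanish at the generic point
  have hgen : (M.map (aeval (pt J x τ))).rank ≤ r := by
    have h1 : ((Rp M).map (aeval x)).rank = finrank ℚ ((Sol M).map (dir x)) := by
      rw [Matrix.rank, range_Rp]
    have hle : (r + 1) * d ≤ (n + 1) * d := Nat.mul_le_mul_right d (by omega)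
    refine rank_grid₂ (D := D) (N' := Rp M) (ρ' := finrank ℚ ((Sol M).map (dir x)))
      hd (Rp_degree M) (by omega) h1.ge (fun m hm h2 => ?_) hτQ
    rw [Matrix.rank, range_Rp] at h2
    have h3 := hx J (by omega) m hm
    have h4 := Nat.mul_le_mul_left (n + 1) h2
    omega
  have hzero : ∀ f ∈ mins (r + 1) M, aeval (pt J x τ) f = 0 := by
    intro f hf
    refine Submodule.span_induction (p := fun f _ => aeval (pt J x τ) f = 0) ?_ ?_ ?_ ?_ hf
    · rintro _ ⟨g, h, rfl⟩
      rw [← minor_eq]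
      by_contra h2
      have h3 := (Pool.Agent.L5helper60.MO.le_rank_iff _ _).2 ⟨g, h, h2⟩
      omega
    · rw [map_zero]
    · intro f g _ _ hf hg
      rw [map_add, hf, hg, add_zero]
    · intro g f _ hf
      rw [smul_eq_mul, map_mul, hf, mul_zero]
  -- conclusion
  by_contra hy
  rw [not_le, ← Nat.succ_le_iff, Pool.Agent.L5helper60.MO.le_rank_iff] at hy
  obtain ⟨g, h, hgh⟩ := hy
  apply hgh
  rw [minor_eq]
  refine transversal (D := VF M) (a := a) (VF_mins M (r + 1)) hα (fun i' i => ?_) hτQ hzero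
    (Ideal.subset_span ⟨g, h, rfl⟩) y
  rw [← ha i' i, Matrix.mulVec, dotProduct]
  congr 1
  refine Finset.sum_congr rfl fun l _ => ?_
  rw [VF_X, mul_comm]
  rfl

/-- The tangent space at a local optimum has codimension at most the modality. -/
theorem codim_of_mod {M : Matrix (Fin n) (Fin n) (MvPolynomial (Fin k) ℚ)} {c d D : ℕ}
    (hM : Modality (fun z : Fin k → ℂ => M.map (aeval z)) c)
    (hD : k + 1 + (n + 1) * d ≤ D) {x : Fin k → ℚ}
    (hx : ∀ J : Finset (Fin k), J.card ≤ c + 1 → ∀ m : {j // j ∈ J} → ℕ, (∀ j, m j ≤ D) →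
      (n + 1) * finrank ℚ ((Sol M).map (dir (pt J x fun j => (m j : ℚ)))) +
        (M.map (aeval (pt J x fun j => (m j : ℚ)))).rank ≤
      (n + 1) * finrank ℚ ((Sol M).map (dir x)) + (M.map (aeval x)).rank) :
    k ≤ finrank ℚ ((Sol M).map (dir x)) + c :=
  codim_of_card fun _ hJ => ind_card hM (by omega) (opt_dim hx) hJ

/-- the largest rank over the rational numbers is the largest rank over the complex numbers -/
lemma rank_complex {M : Matrix (Fin n) (Fin n) (MvPolynomial (Fin k) ℚ)} {r : ℕ}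
    (h : ∀ y : Fin k → ℚ, (M.map (aeval y)).rank ≤ r) (z : Fin k → ℂ) :
    (M.map (aeval z)).rank ≤ r := by
  by_contra hy
  rw [not_le, ← Nat.succ_le_iff, Pool.Agent.L5helper60.MO.le_rank_iff] at hy
  obtain ⟨g, g', hgh⟩ := hy
  apply hgh
  have h1 : (M.submatrix g g').det = 0 := by
    apply MvPolynomial.funext
    intro y
    rw [map_zero, ← MvPolynomial.aeval_eq_eval, ← minor_eq]
    by_contra h2
    have h3 := (Pool.Agent.L5helper60.MO.le_rank_iff _ _).2 ⟨g, g', h2⟩
    have h4 := h y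
    omega
  rw [minor_eq, h1, map_zero]

end Pool.Agent.L5helper60.MQ
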