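import Pool.Agent.L5helper60.SR.Fin
import Pool.Agent.L5helper60.MO.Cor
import Pool.Agent.L5helper60.MQ.Alg
import Pool.Agent.L5helper60.MQ.Opt

set_option autoImplicit false

/-!
# Correctness of the algorithm
-/

namespace Pool.Agent.L5helper60.MQ

open Module Submodule Function MvPolynomial
open Pool.Agent.Lib.CX Pool.Agent.Lib.helper22.CXDet
open Pool.Agent.Lib.Par (rk rk_eq pt_rk ls_opt)
open Pool.Agent.L5helper60.MO (rnk pt_rnk cv pt_cv rk_gram sum_range_map rnk_eq en_map)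

/-! ### The terms -/

/-- the exponents of a monomial -/
noncomputable def mo (k : ℕ) (f : ℕ → ℕ) : Fin k →₀ ℕ := Finsupp.equivFunOnFinite.symm fun j => f j

lemma mo_apply (k : ℕ) (f : ℕ → ℕ) (j : Fin k) : mo k f j = f j := rfl

lemma mo_eq {k : ℕ} {f g : ℕ → ℕ} : mo k f = mo k g ↔ ∀ v < k, f v = g v := by
  constructor
  · intro h v hv
    have := DFunLike.congr_fun h (⟨v, hv⟩ : Fin k)
    exact this
  · intro h
    ext j
    exact h j j.2

lemma term_eq (k : ℕ) (c : ℚ) (f : ℕ → ℕ) :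
    (C c * ∏ j : Fin k, X j ^ f j : MvPolynomial (Fin k) ℚ) = monomial (mo k f) c := by
  rw [monomial_eq, Finsupp.prod_fintype _ _ (fun i => pow_zero _)]
  rfl

/-- an entry of the matrix -/
noncomputable def pe (M : Inp) (s t : ℕ) : MvPolynomial (Fin (nv M)) ℚ :=
  ((ent M s t).map fun m => monomial (mo (nv M) (ex m.2)) m.1).sum

lemma pol_apply (M : Inp) (s t : Fin (dim M)) : pol M s t = pe M s t := by
  show ((ent M s t).map fun m => C m.1 * ∏ j : Fin (nv M), X j ^ ex m.2 j).sum = _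
  rw [pe]
  simp only [term_eq]

lemma coeff_list {k : ℕ} {α : Type} (μ : Fin k →₀ ℕ) (l : List α)
    (f : α → MvPolynomial (Fin k) ℚ) : coeff μ (l.map f).sum = (l.map fun m => coeff μ (f m)).sum := by
  have := map_list_sum (coeffAddMonoidHom (R := ℚ) μ) (l.map f)
  rw [List.map_map] at this
  exact this

lemma map_sum_congr {α : Type} {N : Type} [AddCommMonoid N] {l : List α} {f g : α → N}
    (h : ∀ m ∈ l, f m = g m) : (l.map f).sum = (l.map g).sum := by
  rw [List.map_congr_left h]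

lemma ent_sub {M : Inp} {s t : ℕ} {m : ℚ × List (List Unit)} (h : m ∈ ent M s t) : m ∈ ts M := by
  unfold ent at h
  have h1 : t < (M.2.getD s []).length := by
    by_contra hn
    rw [List.getD_eq_default _ _ (not_lt.1 hn)] at h
    simp at h
  have h2 : s < M.2.length := by
    by_contra hn
    rw [List.getD_eq_default _ _ (not_lt.1 hn)] at h1
    simp at h1
  rw [ts, List.mem_flatten]
  refine ⟨(M.2.getD s []).getD t [], ?_, h⟩
  rw [List.mem_flatten]
  refine ⟨M.2.getD s [], ?_, ?_⟩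
  · rw [List.getD_eq_getElem _ _ h2]
    exact List.getElem_mem _
  · rw [List.getD_eq_getElem _ _ h1]
    exact List.getElem_mem _

lemma ic_cast {M : Inp} {m : ℚ × List (List Unit)} (h : m ∈ ts M) :
    (ic M m.1 : ℚ) = cden M * m.1 := by
  have h4 : m.1.den ∣ cden M := List.dvd_prod (List.mem_map_of_mem (f := fun m => m.1.den) h)
  have h5 : (m.1.den : ℚ) ≠ 0 := by exact_mod_cast m.1.den_ne_zero
  rw [ic, Int.cast_mul, Int.cast_natCast, Nat.cast_div h4 h5]
  conv_rhs => rw [← Rat.num_div_den m.1]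
  ring

lemma cden_pos (M : Inp) : 0 < cden M := by
  rw [cden]
  refine List.prod_pos fun q hq => ?_
  obtain ⟨m, -, rfl⟩ := List.mem_map.1 hq
  exact m.1.den_pos

lemma cden_ne (M : Inp) : (cden M : ℚ) ≠ 0 := by exact_mod_cast (cden_pos M).ne'

/-- the coefficients of the entries -/
lemma cf_cast (M : Inp) (μ : List ℕ) (s t : ℕ) : (cf M μ s t : ℚ) =
    cden M * coeff (mo (nv M) fun v => μ.getD v 0) (pe M s t) := by
  rw [cf, pe, coeff_list, ← List.sum_map_mul_left]
  have h1 : ∀ l : List (ℚ × List (List Unit)), (((l.map fun m =>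
      if ∀ v < nv M, ex m.2 v = μ.getD v 0 then ic M m.1 else 0).sum : ℤ) : ℚ) =
      (l.map fun m => if ∀ v < nv M, ex m.2 v = μ.getD v 0 then (ic M m.1 : ℚ) else 0).sum := by
    intro l
    induction l with
    | nil => simp
    | cons a l ih =>
      rw [List.map_cons, List.sum_cons, Int.cast_add, ih, List.map_cons, List.sum_cons]
      push_cast
      rfl
  rw [h1]
  refine map_sum_congr fun m hm => ?_
  rw [coeff_monomial]
  have h2 : (mo (nv M) (ex m.2) = mo (nv M) fun v => μ.getD v 0) ↔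
    ∀ v < nv M, ex m.2 v = μ.getD v 0 := mo_eq
  rw [ic_cast (ent_sub hm)]
  by_cases h : ∀ v < nv M, ex m.2 v = μ.getD v 0
  · rw [if_pos h, if_pos (h2.2 h)]
  · rw [if_neg h, if_neg fun h' => h (h2.1 h'), mul_zero]

/-- the exponents of the derivative of a term times a coordinate -/
noncomputable def de {k : ℕ} (i : Fin k) (l : Fin (k + 1)) (e : Fin k →₀ ℕ) : Fin k →₀ ℕ :=
  Fin.cases (motive := fun _ => Fin k →₀ ℕ) 0 (fun j => Finsupp.single j 1) l +
    (e - Finsupp.single i 1)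

lemma co_pderiv {k : ℕ} (i : Fin k) (l : Fin (k + 1)) (e : Fin k →₀ ℕ) (c : ℚ) :
    co l * pderiv i (monomial e c) = monomial (de i l e) (c * (e i : ℚ)) := by
  rw [pderiv_monomial]
  refine Fin.cases ?_ (fun j => ?_) l
  · show (1 : MvPolynomial (Fin k) ℚ) * _ = _
    rw [one_mul]
    show _ = monomial (0 + (e - Finsupp.single i 1)) _
    rw [zero_add]
  · show (X j : MvPolynomial (Fin k) ℚ) * _ = monomial (Finsupp.single j 1 +
      (e - Finsupp.single i 1)) _
    rw [MvPolynomial.X, monomial_mul, one_mul]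

lemma de_apply {k : ℕ} (i : Fin k) (l : Fin (k + 1)) (e : Fin k →₀ ℕ) (v : Fin k) :
    de i l e v = (if (l : ℕ) = v + 1 then 1 else 0) + (e v - if v = i then 1 else 0) := by
  have h1 : (e - Finsupp.single i 1 : Fin k →₀ ℕ) v = e v - if v = i then 1 else 0 := by
    rw [Finsupp.tsub_apply, Finsupp.single_apply]
    by_cases h : v = i
    · subst h
      simp
    · rw [if_neg h, if_neg fun h' => h h'.symm]
  rw [de, Finsupp.add_apply, h1]
  congr 1
  refine Fin.cases ?_ (fun j => ?_) l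
  · simp
  · show (Finsupp.single j 1 : Fin k →₀ ℕ) v = _
    rw [Finsupp.single_apply, Fin.val_succ]
    by_cases h : j = v
    · subst h
      simp
    · rw [if_neg h, if_neg fun h' => h (Fin.ext (Nat.succ_injective h'))]

lemma map_list {k : ℕ} {α : Type} (D : MvPolynomial (Fin k) ℚ →ₗ[ℚ] MvPolynomial (Fin k) ℚ)
    (l : List α) (f : α → MvPolynomial (Fin k) ℚ) : D (l.map f).sum = (l.map fun m => D (f m)).sum := by
  rw [map_list_sum, List.map_map]
  rfl

lemma co_pderiv_pe (M : Inp) (i : Fin (nv M)) (l : Fin (nv M + 1)) (s t : ℕ) :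
    co l * pderiv i (pe M s t) = ((ent M s t).map fun m =>
      monomial (de i l (mo (nv M) (ex m.2))) (m.1 * (ex m.2 i : ℚ))).sum := by
  have h1 := map_list (LinearMap.mulLeft ℚ (co l) ∘ₗ (pderiv (R := ℚ) i).toLinearMap) (ent M s t)
    fun m => monomial (mo (nv M) (ex m.2)) m.1
  rw [← pe] at h1
  refine Eq.trans h1 (map_sum_congr fun m _ => ?_)
  exact co_pderiv i l _ m.1

/-- the coefficients of the derivatives -/
lemma dc_cast (M : Inp) (μ : List ℕ) (i : Fin (nv M)) (l : Fin (nv M + 1)) (s t : ℕ) :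
    (dc M i l μ s t : ℚ) =
      cden M * coeff (mo (nv M) fun v => μ.getD v 0) (co l * pderiv i (pe M s t)) := by
  rw [dc, co_pderiv_pe, coeff_list, ← List.sum_map_mul_left]
  have h1 : ∀ L : List (ℚ × List (List Unit)), (((L.map fun m =>
      if ∀ v < nv M, ex m.2 v + (if (l : ℕ) = v + 1 then 1 else 0) =
        μ.getD v 0 + (if v = (i : ℕ) then 1 else 0) then ic M m.1 * (ex m.2 i : ℤ) else 0).sum : ℤ)
        : ℚ) =
      (L.map fun m => if ∀ v < nv M, ex m.2 v + (if (l : ℕ) = v + 1 then 1 else 0) =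
        μ.getD v 0 + (if v = (i : ℕ) then 1 else 0) then (ic M m.1 : ℚ) * (ex m.2 i : ℚ) else 0).sum
        := by
    intro L
    induction L with
    | nil => simp
    | cons a L ih =>
      rw [List.map_cons, List.sum_cons, Int.cast_add, ih, List.map_cons, List.sum_cons]
      push_cast
      rfl
  rw [h1]
  refine map_sum_congr fun m hm => ?_
  rw [coeff_monomial, ic_cast (ent_sub hm)]
  by_cases h0 : ex m.2 i = 0
  · rw [h0]
    simp
  have h2 : (de i l (mo (nv M) (ex m.2)) = mo (nv M) fun v => μ.getD v 0) ↔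
      ∀ v < nv M, ex m.2 v + (if (l : ℕ) = v + 1 then 1 else 0) =
        μ.getD v 0 + (if v = (i : ℕ) then 1 else 0) := by
    have h3 : ∀ v : Fin (nv M), (de i l (mo (nv M) (ex m.2)) v = μ.getD v 0) ↔
        ex m.2 v + (if (l : ℕ) = v + 1 then 1 else 0) =
          μ.getD v 0 + (if (v : ℕ) = (i : ℕ) then 1 else 0) := by
      intro v
      rw [de_apply, mo_apply]
      by_cases h : v = i
      · subst h
        rw [if_pos rfl, if_pos rfl]
        split_ifs <;> omega
      · rw [if_neg h, if_neg (Fin.val_ne_of_ne h)]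
        split_ifs <;> omega
    constructor
    · intro h v hv
      exact (h3 ⟨v, hv⟩).1 (DFunLike.congr_fun h ⟨v, hv⟩)
    · intro h
      ext v
      exact (h3 v).2 (h v v.2)
  by_cases h : ∀ v < nv M, ex m.2 v + (if (l : ℕ) = v + 1 then 1 else 0) =
        μ.getD v 0 + (if v = (i : ℕ) then 1 else 0)
  · rw [if_pos h, if_pos (h2.2 h)]
    ring
  · rw [if_neg h, if_neg fun h' => h (h2.1 h'), mul_zero]

/-- the code of an unknown -/
def ecd (M : Inp) : Un (dim M) (nv M) → ℕ × ℕ × ℕ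
  | Sum.inl u => (0, u.1, u.2)
  | Sum.inr (Sum.inl u) => (1, u.1, u.2)
  | Sum.inr (Sum.inr u) => (2, u.1, u.2)

lemma mem_us (M : Inp) (u : ℕ × ℕ × ℕ) : u ∈ us M ↔ ∃ u', ecd M u' = u := by
  simp only [us, List.mem_append, List.mem_flatMap, List.mem_map, List.mem_range]
  constructor
  · rintro (⟨s, hs, t, ht, rfl⟩ | ⟨s, hs, t, ht, rfl⟩ | ⟨s, hs, t, ht, rfl⟩)
    · exact ⟨Sum.inl (⟨s, hs⟩, ⟨t, ht⟩), rfl⟩
    · exact ⟨Sum.inr (Sum.inl (⟨s, hs⟩, ⟨t, ht⟩)), rfl⟩
    · exact ⟨Sum.inr (Sum.inr (⟨s, hs⟩, ⟨t, ht⟩)), rfl⟩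
  · rintro ⟨u' | u' | u', rfl⟩
    · exact Or.inl ⟨u'.1, u'.1.2, u'.2, u'.2.2, rfl⟩
    · exact Or.inr (Or.inl ⟨u'.1, u'.1.2, u'.2, u'.2.2, rfl⟩)
    · exact Or.inr (Or.inr ⟨u'.1, u'.1.2, u'.2, u'.2.2, rfl⟩)

/-- the exponents of the monomial number `r` -/
noncomputable def mr (M : Inp) (r : Fin (ms M).length) : Fin (nv M) →₀ ℕ :=
  mo (nv M) fun v => ((ms M)[r]).getD v 0

/-- **The coefficients of the equations.** -/
lemma ce_cast (M : Inp) (u : Un (dim M) (nv M)) (r : Fin (ms M).length) (s t : Fin (dim M)) :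
    (ce M (ecd M u) (ms M)[r] s t : ℚ) = cden M * coeff (mr M r) (el (pol M) u s t) := by
  rcases u with ⟨a, b⟩ | ⟨a, b⟩ | ⟨a, b⟩
  · have h1 : ce M (ecd M (Sum.inl (a, b))) (ms M)[r] s t =
      if (s : ℕ) = a then cf M (ms M)[r] b t else 0 := by
      simp only [ce, ecd, if_true]
    have h2 : el (pol M) (Sum.inl (a, b)) s t = if s = a then pol M b t else 0 := rfl
    rw [h1, h2]
    by_cases h : s = a
    · subst h
      rw [if_pos rfl, if_pos rfl, cf_cast, pol_apply]
      rfl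
    · rw [if_neg (Fin.val_ne_of_ne h), if_neg h, coeff_zero, mul_zero, Int.cast_zero]
  · have h1 : ce M (ecd M (Sum.inr (Sum.inl (a, b)))) (ms M)[r] s t =
      if (t : ℕ) = b then cf M (ms M)[r] s a else 0 := by
      simp [ce, ecd]
    have h2 : el (pol M) (Sum.inr (Sum.inl (a, b))) s t = if t = b then pol M s a else 0 := rfl
    rw [h1, h2]
    by_cases h : t = b
    · subst h
      rw [if_pos rfl, if_pos rfl, cf_cast, pol_apply]
      rfl
    · rw [if_neg (Fin.val_ne_of_ne h), if_neg h, coeff_zero, mul_zero, Int.cast_zero]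
  · have h1 : ce M (ecd M (Sum.inr (Sum.inr (a, b)))) (ms M)[r] s t =
      - dc M a b (ms M)[r] s t := by
      simp [ce, ecd]
    have h2 : el (pol M) (Sum.inr (Sum.inr (a, b))) s t = - (co b * pderiv a (pol M s t)) := rfl
    rw [h1, h2, Int.cast_neg, dc_cast, coeff_neg, mul_neg, pol_apply]
    rfl

/-! ### The list of the monomials is complete -/

lemma mem_ms {M : Inp} {m : ℚ × List (List Unit)} (hm : m ∈ ts M) {i l : ℕ} (hi : i ≤ nv M)
    (hl : l ≤ nv M) : ∃ r : Fin (ms M).length, (ms M)[r] = sh M m.2 i l := by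
  have h : sh M m.2 i l ∈ ms M := by
    simp only [ms, List.mem_flatMap, List.mem_map, List.mem_range]
    exact ⟨m, hm, i, by omega, l, by omega, rfl⟩
  obtain ⟨r, hr, he⟩ := List.mem_iff_getElem.1 h
  exact ⟨⟨r, hr⟩, he⟩

lemma sh_getD (M : Inp) (e : List (List Unit)) (i l : ℕ) (v : Fin (nv M)) :
    (sh M e i l).getD v 0 = ex e v + (if l = v + 1 then 1 else 0) - (if (v : ℕ) = i then 1 else 0) := by
  have h : (v : ℕ) < (List.range (nv M)).length := by
    rw [List.length_range]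
    exact v.2
  rw [sh, List.getD_eq_getElem _ _ (by rw [List.length_map]; exact h), List.getElem_map,
    List.getElem_range]

lemma exists_of_sum_ne {α : Type} {l : List α} {f : α → ℚ} (h : (l.map f).sum ≠ 0) :
    ∃ m ∈ l, f m ≠ 0 := by
  by_contra hn
  push Not at hn
  apply h
  rw [List.map_congr_left hn]
  simp

lemma pe_coeff {M : Inp} {s t : ℕ} {μ : Fin (nv M) →₀ ℕ} (h : coeff μ (pe M s t) ≠ 0) :
    ∃ r, mr M r = μ := by
  rw [pe, coeff_list] at h
  obtain ⟨m, hm, h1⟩ := exists_of_sum_ne h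
  rw [coeff_monomial] at h1
  have h2 : mo (nv M) (ex m.2) = μ := by
    by_contra h3
    rw [if_neg h3] at h1
    exact h1 rfl
  obtain ⟨r, hr⟩ := mem_ms (ent_sub hm) (i := nv M) (l := 0) le_rfl (Nat.zero_le _)
  refine ⟨r, ?_⟩
  rw [← h2, mr, hr]
  ext v
  rw [mo_apply, mo_apply, sh_getD, if_neg (by omega), if_neg v.2.ne]
  rfl

lemma dc_coeff {M : Inp} {s t : ℕ} {i : Fin (nv M)} {l : Fin (nv M + 1)} {μ : Fin (nv M) →₀ ℕ}
    (h : coeff μ (co l * pderiv i (pe M s t)) ≠ 0) : ∃ r, mr M r = μ := by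
  rw [co_pderiv_pe, coeff_list] at h
  obtain ⟨m, hm, h1⟩ := exists_of_sum_ne h
  rw [coeff_monomial] at h1
  have h2 : de i l (mo (nv M) (ex m.2)) = μ := by
    by_contra h3
    rw [if_neg h3] at h1
    exact h1 rfl
  have h4 : ex m.2 i ≠ 0 := by
    intro h3
    rw [h3] at h1
    simp at h1
  obtain ⟨r, hr⟩ := mem_ms (ent_sub hm) (i := i) (l := l) i.2.le (Nat.lt_succ_iff.1 l.2)
  refine ⟨r, ?_⟩
  rw [← h2, mr, hr]
  ext v
  rw [mo_apply, sh_getD, de_apply, mo_apply]
  by_cases h : v = i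
  · subst h
    rw [if_pos rfl, if_pos rfl]
    split_ifs <;> omega
  · rw [if_neg h, if_neg (Fin.val_ne_of_ne h)]
    omega

/-- All monomials of the equations are in the list. -/
lemma el_coeff {M : Inp} {u : Un (dim M) (nv M)} {s t : Fin (dim M)} {μ : Fin (nv M) →₀ ℕ}
    (h : coeff μ (el (pol M) u s t) ≠ 0) : ∃ r, mr M r = μ := by
  rcases u with ⟨a, b⟩ | ⟨a, b⟩ | ⟨a, b⟩
  · simp only [el, Matrix.of_apply, pol_apply] at h
    by_cases h' : s = a
    · rw [if_pos h'] at h
      exact pe_coeff h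
    · rw [if_neg h', coeff_zero] at h
      exact absurd rfl h
  · simp only [el, Matrix.of_apply, pol_apply] at h
    by_cases h' : t = b
    · rw [if_pos h'] at h
      exact pe_coeff h
    · rw [if_neg h', coeff_zero] at h
      exact absurd rfl h
  · simp only [el, Matrix.of_apply, pol_apply] at h
    rw [coeff_neg] at h
    exact dc_coeff (neg_ne_zero.1 h)

end Pool.Agent.L5helper60.MQ
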