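import Pool.Agent.L5helper60.MQ.Cor

set_option autoImplicit false

/-!
# The system of linear equations
-/

namespace Pool.Agent.L5helper60.MQ

open Module Submodule Function MvPolynomial
open Pool.Agent.Lib.CX Pool.Agent.Lib.helper22.CXDet
open Pool.Agent.Lib.Par (rk rk_eq pt_rk ls_opt)
open Pool.Agent.L5helper60.MO (rnk pt_rnk cv pt_cv rk_gram sum_range_map rnk_eq en_map)

/-- the indices of the equations -/
abbrev Ro (M : Inp) := Fin (ms M).length × Fin (dim M) × Fin (dim M)

/-- the linear map of the equations -/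
noncomputable def T₀ (M : Inp) : (Un (dim M) (nv M) → ℚ) →ₗ[ℚ] (Ro M → ℚ) :=
  Fintype.linearCombination ℚ fun (u : Un (dim M) (nv M)) (r : Ro M) =>
    (cden M : ℚ) * coeff (mr M r.1) (el (pol M) u r.2.1 r.2.2)

lemma T₀_apply (M : Inp) (w : Un (dim M) (nv M) → ℚ) (r : Ro M) : T₀ M w r =
    (cden M : ℚ) * coeff (mr M r.1) ((∑ u, w u • el (pol M) u) r.2.1 r.2.2) := by
  rw [T₀, Fintype.linearCombination_apply, Finset.sum_apply, Matrix.sum_apply, coeff_sum,
    Finset.mul_sum]
  refine Finset.sum_congr rfl fun u _ => ?_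
  rw [Pi.smul_apply, smul_eq_mul, Matrix.smul_apply, coeff_smul, smul_eq_mul]
  ring

lemma T₀_single (M : Inp) (u : Un (dim M) (nv M)) (r : Ro M) : T₀ M (Pi.single u 1) r =
    (cden M : ℚ) * coeff (mr M r.1) (el (pol M) u r.2.1 r.2.2) := by
  rw [T₀, Fintype.linearCombination_apply_single, one_smul]

lemma ker_T₀ (M : Inp) : LinearMap.ker (T₀ M) = Sol (pol M) := by
  ext w
  rw [mem_Sol, LinearMap.mem_ker]
  constructor
  · intro h
    refine Matrix.ext fun s t => MvPolynomial.ext _ _ fun μ => ?_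
    rw [Matrix.zero_apply, coeff_zero]
    by_contra hne
    have h1 : ∃ u, coeff μ (el (pol M) u s t) ≠ 0 := by
      by_contra hn
      push Not at hn
      apply hne
      rw [Matrix.sum_apply, coeff_sum]
      refine Finset.sum_eq_zero fun u _ => ?_
      rw [Matrix.smul_apply, coeff_smul, hn u, smul_zero]
    obtain ⟨u, hu⟩ := h1
    obtain ⟨r, rfl⟩ := el_coeff hu
    have h2 := congrFun h (r, s, t)
    rw [T₀_apply] at h2
    exact hne ((mul_eq_zero.1 h2).resolve_left (cden_ne M))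
  · intro h
    funext r
    rw [T₀_apply, h, Matrix.zero_apply, coeff_zero, mul_zero]
    rfl

/-- the linear map of the system -/
noncomputable def T (M : Inp) (x : Fin (nv M) → ℚ) : (Un (dim M) (nv M) → ℚ) →ₗ[ℚ]
    (Ro M ⊕ Fin (nv M) → ℚ) where
  toFun w := Sum.elim (T₀ M w) (dir x w)
  map_add' w w' := by
    funext r
    rcases r with r | i
    · simp only [map_add, Sum.elim_inl, Pi.add_apply]
    · simp only [map_add, Sum.elim_inr, Pi.add_apply]
  map_smul' c w := by
    funext r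
    rcases r with r | i
    · simp only [map_smul, Sum.elim_inl, Pi.smul_apply, RingHom.id_apply]
    · simp only [map_smul, Sum.elim_inr, Pi.smul_apply, RingHom.id_apply]

lemma ker_T (M : Inp) (x : Fin (nv M) → ℚ) :
    LinearMap.ker (T M x) = Sol (pol M) ⊓ LinearMap.ker (dir x) := by
  rw [← ker_T₀]
  ext w
  rw [Submodule.mem_inf, LinearMap.mem_ker, LinearMap.mem_ker, LinearMap.mem_ker]
  constructor
  · intro h
    exact ⟨funext fun r => congrFun h (Sum.inl r), funext fun i => congrFun h (Sum.inr i)⟩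
  · rintro ⟨h1, h2⟩
    funext r
    rcases r with r | i
    · exact congrFun h1 r
    · exact congrFun h2 i

/-- the column of an unknown in the equations -/
def col₀ (M : Inp) (u : ℕ × ℕ × ℕ) (r : Ro M) : ℚ := (ce M u (ms M)[r.1] r.2.1 r.2.2 : ℚ)

/-- the column of an unknown -/
def col (M : Inp) (x : List ℕ) (u : ℕ × ℕ × ℕ) : Ro M ⊕ Fin (nv M) → ℚ :=
  Sum.elim (col₀ M u) (fun i => (cv x u i : ℚ))

lemma sum_map {α : Type} (l : List α) (f : α → ℤ) : (l.map f).sum = ∑ i : Fin l.length, f l[i] :=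
  (Fin.sum_univ_fun_getElem l f).symm

lemma gr₀_cast (M : Inp) (u u' : ℕ × ℕ × ℕ) : (gr₀ M u u' : ℚ) = col₀ M u ⬝ᵥ col₀ M u' := by
  rw [gr₀, sum_map, dotProduct, Fintype.sum_prod_type]
  simp only [sum_range_map, Fintype.sum_prod_type, col₀]
  push_cast
  rfl

lemma gr_cast (M : Inp) (x : List ℕ) (u u' : ℕ × ℕ × ℕ) :
    (gr M x u u' : ℚ) = col M x u ⬝ᵥ col M x u' := by
  rw [gr, Int.cast_add, gr₀_cast, sum_range_map, dotProduct, dotProduct, Fintype.sum_sum_type]
  simp only [col, Sum.elim_inl, Sum.elim_inr]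
  push_cast
  rfl

lemma col₀_eq (M : Inp) (u : Un (dim M) (nv M)) : col₀ M (ecd M u) = T₀ M (Pi.single u 1) := by
  funext r
  rw [T₀_single, col₀, ce_cast]

lemma col_eq (M : Inp) (x : List ℕ) (u : Un (dim M) (nv M)) :
    col M x (ecd M u) = T M (fun i => ((x.getD i 0 : ℕ) : ℚ)) (Pi.single u 1) := by
  funext r
  rcases r with r | i
  · exact congrFun (col₀_eq M u) r
  · show (cv x (ecd M u) i : ℚ) = dir (fun i => ((x.getD i 0 : ℕ) : ℚ)) (Pi.single u 1) i
    have hd : ∀ w : Un (dim M) (nv M) → ℚ, dir (fun i => ((x.getD i 0 : ℕ) : ℚ)) w i =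
      w (Sum.inr (Sum.inr (i, 0))) + ∑ j : Fin (nv M), w (Sum.inr (Sum.inr (i, j.succ))) *
        ((x.getD j 0 : ℕ) : ℚ) := fun _ => rfl
    rw [hd]
    rcases u with ⟨a, b⟩ | ⟨a, b⟩ | ⟨a, b⟩
    · simp [cv, ecd]
    · simp [cv, ecd]
    · simp only [cv, ecd, Pi.single_apply]
      by_cases h : a = i
      · subst h
        refine Fin.cases ?_ (fun b => ?_) b
        · simp
        · simp [(Fin.succ_ne_zero b).symm]
      · have h' : ¬ i = a := fun e => h e.symm
        simp [h', Fin.val_ne_of_ne h]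

/-- the rank of a table of scalar products of columns -/
theorem rk_table {M : Inp} {ι : Type} [Fintype ι]
    (T' : (Un (dim M) (nv M) → ℚ) →ₗ[ℚ] (ι → ℚ)) (g : ℕ × ℕ × ℕ → ℕ × ℕ × ℕ → ℤ)
    (cl : ℕ × ℕ × ℕ → ι → ℚ) (h1 : ∀ u u', (g u u' : ℚ) = cl u ⬝ᵥ cl u')
    (h2 : ∀ u, cl (ecd M u) = T' (Pi.single u 1)) :
    rk ((us M).map fun u => (us M).map fun u' => g u u') = finrank ℚ (LinearMap.range T') := by
  rw [rk_gram (fun i => cl ((us M).getD i (0, 0, 0))) fun i hi j hj => ?_]
  · have hset : (fun i => cl ((us M).getD i (0, 0, 0))) '' Set.Iio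
        ((us M).map fun u => (us M).map fun u' => g u u').length =
        Set.range fun u => T' (Pi.single u 1) := by
      rw [List.length_map]
      ext v
      constructor
      · rintro ⟨i, hi, rfl⟩
        obtain ⟨u, hu⟩ := (mem_us M _).1 (List.getElem_mem (n := i) hi)
        refine ⟨u, ?_⟩
        beta_reduce
        rw [← h2, hu, List.getD_eq_getElem _ _ hi]
      · rintro ⟨u, rfl⟩
        obtain ⟨i, hi, he⟩ := List.mem_iff_getElem.1 ((mem_us M (ecd M u)).2 ⟨u, rfl⟩)
        refine ⟨i, hi, ?_⟩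
        beta_reduce
        rw [← h2, List.getD_eq_getElem _ _ hi, he]
    have hb : (fun u => T' (Pi.single u 1)) =
        T' ∘ Pi.basisFun ℚ (Un (dim M) (nv M)) :=
      funext fun u => by rw [Function.comp_apply, Pi.basisFun_apply]
    rw [hset, LinearMap.range_eq_map, ← (Pi.basisFun ℚ (Un (dim M) (nv M))).span_eq,
      Submodule.map_span, ← Set.range_comp, hb]
  · rw [List.length_map] at hi hj
    rw [← h1, en_map (0, 0, 0) g hi hj]

/-- **The rank of the system of linear equations.** -/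
theorem rk_gt (M : Inp) (x : List ℕ) : rk (gt M x) + finrank ℚ (Sol (pol M)) =
    Fintype.card (Un (dim M) (nv M)) +
      finrank ℚ ((Sol (pol M)).map (dir fun i => ((x.getD i 0 : ℕ) : ℚ))) := by
  have h1 : rk (gt M x) =
      finrank ℚ (LinearMap.range (T M fun i => ((x.getD i 0 : ℕ) : ℚ))) :=
    rk_table _ _ (col M x) (gr_cast M x) (col_eq M x)
  have h2 := LinearMap.finrank_range_add_finrank_ker (T M fun i => ((x.getD i 0 : ℕ) : ℚ))
  rw [ker_T, Module.finrank_fintype_fun_eq_card] at h2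
  have h3 := fr_map (Sol (pol M)) (dir fun i => ((x.getD i 0 : ℕ) : ℚ))
  omega

theorem rk_gt₀ (M : Inp) : rk (gt₀ M) + finrank ℚ (Sol (pol M)) =
    Fintype.card (Un (dim M) (nv M)) := by
  have h1 : rk (gt₀ M) = finrank ℚ (LinearMap.range (T₀ M)) :=
    rk_table _ _ (col₀ M) (gr₀_cast M) (col₀_eq M)
  have h2 := LinearMap.finrank_range_add_finrank_ker (T₀ M)
  rw [ker_T₀, Module.finrank_fintype_fun_eq_card] at h2
  omega

end Pool.Agent.L5helper60.MQ
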