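import Pool.Agent.L5helper60.MQ.Lin

set_option autoImplicit false

/-!
# The algorithm finds the largest rank
-/

namespace Pool.Agent.L5helper60.MQ

open Module Submodule Function MvPolynomial
open Pool.Agent.Lib.CX Pool.Agent.Lib.helper22.CXDet
open Pool.Agent.Lib.Par (rk rk_eq pt_rk ls_opt)
open Pool.Agent.L5helper60.MO (rnk pt_rnk cv pt_cv rk_gram sum_range_map rnk_eq en_map pt)
open Pool.Agent.L5helper60.SR (det_eq_zero_iff)

/-! ### The candidates -/

lemma mem_stp {M : Inp} {x y : List ℕ} :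
    y ∈ stp M x ↔ y = x ∨ ∃ i < nv M, ∃ v ≤ nb M, x.set i v = y := by
  simp only [stp, List.mem_cons, List.mem_flatMap, List.mem_map, List.mem_range,
    Nat.lt_succ_iff]

lemma cd_inv {M : Inp} (c : ℕ) : ∀ {x y : List ℕ}, y ∈ cd c M x →
    y.length = x.length ∧ ∀ v ∈ y, v ∈ x ∨ v ≤ nb M := by
  induction c with
  | zero =>
    intro x y h
    rw [cd, List.mem_singleton] at h
    subst h
    exact ⟨rfl, fun v hv => Or.inl hv⟩
  | succ c ih =>
    intro x y h
    rw [cd, List.mem_flatMap] at h
    obtain ⟨z, hz, hy⟩ := h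
    obtain ⟨h1, h2⟩ := ih hz
    rw [mem_stp] at hy
    rcases hy with rfl | ⟨i, hi, v, hv, rfl⟩
    · exact ⟨h1, h2⟩
    · refine ⟨by rw [List.length_set, h1], fun w hw => ?_⟩
      rcases List.mem_or_eq_of_mem_set hw with hw | rfl
      · exact h2 w hw
      · exact Or.inr hv

lemma cd_mem {M : Inp} (c : ℕ) : ∀ (J : Finset (Fin (nv M))) (f : Fin (nv M) → ℕ) (x : List ℕ),
    x.length = nv M → J.card ≤ c → (∀ i ∉ J, f i = x.getD i 0) → (∀ i ∈ J, f i ≤ nb M) →
    ∃ y ∈ cd c M x, y.length = nv M ∧ ∀ i : Fin (nv M), y.getD i 0 = f i := by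
  classical
  induction c with
  | zero =>
    intro J f x hx hJ h1 h2
    have hJ0 : J = ∅ := Finset.card_eq_zero.1 (by omega)
    subst hJ0
    exact ⟨x, by rw [cd, List.mem_singleton], hx, fun i => (h1 i (Finset.notMem_empty i)).symm⟩
  | succ c ih =>
    intro J f x hx hJ h1 h2
    rcases J.eq_empty_or_nonempty with rfl | ⟨j, hj⟩
    · obtain ⟨y, hy, h3⟩ := ih ∅ f x hx (by simp) h1 (by simp)
      refine ⟨y, ?_, h3⟩
      rw [cd, List.mem_flatMap]
      exact ⟨y, hy, mem_stp.2 (Or.inl rfl)⟩
    · obtain ⟨y, hy, h3, h4⟩ := ih (J.erase j) (update f j (x.getD j 0)) x hx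
        (by rw [Finset.card_erase_of_mem hj]; omega) (fun i hi => by
          by_cases h : i = j
          · subst h
            rw [update_self]
          · rw [update_of_ne h]
            exact h1 i fun h' => hi (Finset.mem_erase.2 ⟨h, h'⟩)) (fun i hi => by
          rw [Finset.mem_erase] at hi
          rw [update_of_ne hi.1]
          exact h2 i hi.2)
      refine ⟨y.set j (f j), ?_, by rw [List.length_set, h3], fun i => ?_⟩
      · rw [cd, List.mem_flatMap]
        exact ⟨y, hy, mem_stp.2 (Or.inr ⟨j, j.2, f j, h2 j hj, rfl⟩)⟩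
      · by_cases h : i = j
        · subst h
          rw [List.getD_eq_getElem _ _ (by rw [List.length_set, h3]; exact i.2),
            List.getElem_set_self]
        · have h5 := h4 i
          rw [update_of_ne h] at h5
          rw [← h5, List.getD_eq_getElem?_getD, List.getD_eq_getElem?_getD,
            List.getElem?_set_ne fun e => h (Fin.ext e.symm)]

/-! ### The matrix -/

/-- the value of the matrix at a list of natural numbers -/
noncomputable def vl (M : Inp) (x : List ℕ) : Matrix (Fin (dim M)) (Fin (dim M)) ℚ :=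
  (pol M).map (aeval fun i : Fin (nv M) => ((x.getD i 0 : ℕ) : ℚ))

lemma mv_cast (M : Inp) (e : List (List Unit)) (x : List ℕ) (c : ℚ) :
    aeval (fun i : Fin (nv M) => ((x.getD i 0 : ℕ) : ℚ))
      (monomial (mo (nv M) (ex e)) c : MvPolynomial (Fin (nv M)) ℚ) = c * (mv (nv M) e x : ℚ) := by
  rw [← term_eq, map_mul, map_prod, aeval_C]
  congr 1
  rw [mv]
  have h1 : ((List.range (nv M)).map fun v => x.getD v 0 ^ ex e v).prod =
      ∏ v : Fin (nv M), x.getD v 0 ^ ex e v := by
    rw [← List.prod_toFinset _ List.nodup_range, List.toFinset_range, Finset.prod_range]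
  rw [h1]
  push_cast
  refine Finset.prod_congr rfl fun j _ => ?_
  rw [map_pow, aeval_X]

lemma en_et (M : Inp) (x : List ℕ) (s t : Fin (dim M)) :
    (en (et M x) s t : ℚ) = ((cden M : ℚ) • vl M x) s t := by
  rw [et, en_tb s.2 t.2, Matrix.smul_apply, vl, Matrix.map_apply, pol_apply, pe, map_list_sum,
    List.map_map, smul_eq_mul, ← List.sum_map_mul_left]
  have h1 : ∀ l : List (ℚ × List (List Unit)), (((l.map fun m =>
      ic M m.1 * (mv (nv M) m.2 x : ℤ)).sum : ℤ) : ℚ) =
      (l.map fun m => (ic M m.1 : ℚ) * (mv (nv M) m.2 x : ℚ)).sum := by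
    intro l
    induction l with
    | nil => simp
    | cons a l ih =>
      rw [List.map_cons, List.sum_cons, Int.cast_add, ih, List.map_cons, List.sum_cons]
      push_cast
      rfl
  rw [h1]
  refine map_sum_congr fun m hm => ?_
  rw [ic_cast (ent_sub hm), Function.comp_apply, mv_cast]
  ring

lemma rnk_et (M : Inp) (x : List ℕ) : rnk (dim M) (et M x) = (vl M x).rank := by
  rw [rnk_eq (en_et M x), SR.rank_smul' (cden_ne M)]

lemma ps_eq (M : Inp) (x : List ℕ) : ps M x + (dim M + 1) * finrank ℚ (Sol (pol M)) =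
    (dim M + 1) * Fintype.card (Un (dim M) (nv M)) +
      ((dim M + 1) * finrank ℚ ((Sol (pol M)).map (dir fun i => ((x.getD i 0 : ℕ) : ℚ))) +
        (vl M x).rank) := by
  have h1 := congrArg (fun m => (dim M + 1) * m) (rk_gt M x)
  simp only [mul_add] at h1
  rw [ps, rnk_et]
  omega

lemma us_length (M : Inp) : (us M).length = Fintype.card (Un (dim M) (nv M)) := by
  simp [us, List.length_flatMap]

lemma ps_lt (M : Inp) (x : List ℕ) : ps M x < it M := by
  have h1 := rk_gt M x
  have h2 : finrank ℚ ((Sol (pol M)).map (dir fun i => ((x.getD i 0 : ℕ) : ℚ))) ≤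
      finrank ℚ (Sol (pol M)) := finrank_map_le _ _
  have h3 : rnk (dim M) (et M x) ≤ dim M := by
    rw [rnk_et]
    have := Matrix.rank_le_card_height (vl M x)
    rwa [Fintype.card_fin] at this
  rw [ps, it, us_length]
  have h4 : rk (gt M x) ≤ Fintype.card (Un (dim M) (nv M)) := by omega
  have h5 := Nat.mul_le_mul_left (dim M + 1) h4
  rw [mul_add]
  omega

/-! ### The degrees -/

lemma ex_le (e : List (List Unit)) (j : ℕ) : ex e j ≤ e.flatten.length := by
  unfold ex
  by_cases h : j < e.length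
  · rw [List.getD_eq_getElem _ _ h]
    exact (List.sublist_flatten_of_mem (List.getElem_mem h)).length_le
  · rw [List.getD_eq_default _ _ (not_lt.1 h)]
    exact Nat.zero_le _

lemma ex_le_dg {M : Inp} {m : ℚ × List (List Unit)} (h : m ∈ ts M) (j : ℕ) : ex m.2 j ≤ dg M := by
  refine (ex_le m.2 j).trans ?_
  rw [dg, List.flatMap]
  exact (List.sublist_flatten_of_mem (List.mem_map_of_mem (f := fun m : ℚ × List (List Unit) =>
    m.2.flatten) h)).length_le

lemma pol_degree (M : Inp) (s t : Fin (dim M)) (i : Fin (nv M)) :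
    (pol M s t).degreeOf i ≤ dg M := by
  rw [pol_apply, pe]
  have h1 : ∀ m ∈ ent M s t, degreeOf i (monomial (mo (nv M) (ex m.2)) m.1) ≤ dg M := by
    intro m hm
    by_cases h0 : m.1 = 0
    · rw [h0, monomial_zero, degreeOf_zero]
      exact Nat.zero_le _
    · rw [degreeOf_monomial_eq _ _ h0]
      exact ex_le_dg (ent_sub hm) i
  generalize ent M s t = l at h1
  induction l with
  | nil =>
    rw [List.map_nil, List.sum_nil, degreeOf_zero]
    exact Nat.zero_le _
  | cons a l ih =>
    rw [List.map_cons, List.sum_cons]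
    exact (degreeOf_add_le _ _ _).trans (max_le (h1 a List.mem_cons_self)
      (ih fun m hm => h1 m (List.mem_cons_of_mem _ hm)))

/-! ### The local search -/

lemma sol_inv (c : ℕ) (M : Inp) (k : ℕ) :
    ∀ x, x = (fun x => ((cd (c + 1) M x).filter (ps M x < ps M ·)).headD x)^[k]
        (List.replicate (nv M) 0) → x.length = nv M ∧ ∀ v ∈ x, v ≤ nb M := by
  induction k with
  | zero =>
    rintro _ rfl
    simp
  | succ k ih =>
    rintro _ rfl
    rw [iterate_succ_apply']
    obtain ⟨h1, h2⟩ := ih _ rfl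
    generalize (fun x => ((cd (c + 1) M x).filter (ps M x < ps M ·)).headD x)^[k]
      (List.replicate (nv M) 0) = x at *
    rcases h : (cd (c + 1) M x).filter (ps M x < ps M ·) with _ | ⟨y, l⟩
    · exact ⟨h1, h2⟩
    have := (List.mem_filter.1 (h ▸ List.mem_cons_self : y ∈ _)).1
    obtain ⟨h3, h4⟩ := cd_inv (c + 1) this
    refine ⟨h3.trans h1, fun v hv => ?_⟩
    rcases h4 v hv with h5 | h5
    · exact h2 v h5
    · exact h5

lemma sol_length (c : ℕ) (M : Inp) : (sol c M).length = nv M := (sol_inv c M _ _ rfl).1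

lemma sol_le (c : ℕ) (M : Inp) : ∀ v ∈ sol c M, v ≤ nb M := (sol_inv c M _ _ rfl).2

attribute [local irreducible] ent cden dim et nv tb us ce cv gr gt rnk ps nb it stp ts ic sh ms cf
  dc gr₀ gt₀ mv dg in
theorem pt_sol (c : ℕ) : PT (sol c) := by
  have h0 : ∀ {α : Type} [Enc α] {L : α → Inp} {x : α → List ℕ}, PT L → PT x →
    PT fun a => cd (c + 1) (L a) (x a) := pt_cd (c + 1)
  have h1 : PT fun p : Inp × List ℕ => cd (c + 1) p.1 p.2 :=
    h0 (by fun_prop) (by fun_prop)
  refine PT.iterate (B := fun M => nv M * (3 * nb M + 2 + 1) + 2)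
    ?_ (by fun_prop) (by fun_prop) (by fun_prop) (by fun_prop) fun M k _ => by
      obtain ⟨h1, h2⟩ := sol_inv c M k _ rfl
      exact (size_list_le fun v hv => (size_nat_mono (h2 v hv)).trans
        (size_nat_le _)).trans_eq (by rw [h1])
  fun_prop

attribute [local irreducible] ent cden dim et nv tb us ce cv gr gt rnk ps nb it stp ts ic sh ms cf
  dc gr₀ gt₀ mv dg sol in
theorem pt_flg (c : ℕ) : PT (flg c) := by
  have h0 := pt_sol c
  unfold flg
  fun_prop

attribute [local irreducible] ent cden dim et nv tb us ce cv gr gt rnk ps nb it stp ts ic sh ms cf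
  dc gr₀ gt₀ mv dg sol flg in
theorem pt_alg (c : ℕ) : PT (alg c) := by
  have h0 := pt_sol c
  have h1 := pt_flg c
  unfold alg
  fun_prop

/-- the point found by the local search is a local optimum -/
theorem sol_opt (c : ℕ) (M : Inp) (J : Finset (Fin (nv M))) (hJ : J.card ≤ c + 1)
    (m : {j // j ∈ J} → ℕ) (hm : ∀ j, m j ≤ nb M) :
    (dim M + 1) * finrank ℚ ((Sol (pol M)).map (dir
        (pt J (fun i : Fin (nv M) => (((sol c M).getD i 0 : ℕ) : ℚ)) fun j => (m j : ℚ)))) +
      ((pol M).map (aeval (pt J (fun i : Fin (nv M) => (((sol c M).getD i 0 : ℕ) : ℚ))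
        fun j => (m j : ℚ)))).rank ≤
    (dim M + 1) * finrank ℚ ((Sol (pol M)).map (dir
        (fun i : Fin (nv M) => (((sol c M).getD i 0 : ℕ) : ℚ)))) +
      ((pol M).map (aeval (fun i : Fin (nv M) => (((sol c M).getD i 0 : ℕ) : ℚ)))).rank := by
  have o := ls_opt (cd (c + 1) M) (ps M) (List.replicate (nv M) 0) (K := it M) (ps_lt M)
  change ∀ y ∈ cd (c + 1) M (sol c M), _ ≤ ps M (sol c M) at o
  obtain ⟨z, hz, -, hz2⟩ := cd_mem (c + 1) J
    (fun i => if h : i ∈ J then m ⟨i, h⟩ else (sol c M).getD i 0) (sol c M) (sol_length c M) hJ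
    (fun i hi => by rw [dif_neg hi]) (fun i hi => by rw [dif_pos hi]; exact hm _)
  have h1 := o z hz
  have h2 := ps_eq M z
  have h3 := ps_eq M (sol c M)
  rw [vl] at h2 h3
  have h4 : (fun i : Fin (nv M) => ((z.getD i 0 : ℕ) : ℚ)) =
      pt J (fun i : Fin (nv M) => (((sol c M).getD i 0 : ℕ) : ℚ)) fun j => (m j : ℚ) := by
    funext i
    rw [hz2, pt]
    by_cases h : i ∈ J
    · rw [dif_pos h, dif_pos h]
    · rw [dif_neg h, dif_neg h]
      rfl
  rw [h4] at h2
  omega

/-- the test of the codimension is correct -/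
theorem flg_iff (c : ℕ) (M : Inp) : flg c M = true ↔ nv M ≤ finrank ℚ ((Sol (pol M)).map (dir
    (fun i : Fin (nv M) => (((sol c M).getD i 0 : ℕ) : ℚ)))) + c := by
  rw [flg, decide_eq_true_eq]
  have h1 := rk_gt₀ M
  have h2 := rk_gt M (sol c M)
  omega

/-- **Matrices of small modality pass the test.** -/
theorem flg_of_mod {c : ℕ} {M : Inp}
    (h : Modality (fun z : Fin (nv M) → ℂ => (pol M).map (aeval z)) c) : flg c M = true :=
  (flg_iff c M).2 (codim_of_mod h (d := dg M) (D := nb M) (by rw [nb]) (sol_opt c M))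

/-- **The local search finds the largest rank.** -/
theorem sol_max {c : ℕ} {M : Inp} (h : flg c M = true) (y : Fin (nv M) → ℚ) :
    ((pol M).map (aeval y)).rank ≤ (vl M (sol c M)).rank :=
  opt (d := dg M) (D := nb M) (pol_degree M) (by rw [nb]) ((flg_iff c M).1 h) (sol_opt c M) y

lemma eval_det {n k : ℕ} (N : Matrix (Fin n) (Fin n) (MvPolynomial (Fin k) ℚ)) (y : Fin k → ℚ) :
    aeval y N.det = (N.map (aeval y)).det := by
  rw [← AlgHom.mapMatrix_apply, ← AlgHom.map_det]

/-- **Singularity is decided at one point.** -/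
theorem sol_singular {c : ℕ} {M : Inp} (h : flg c M = true) : (pol M).det = 0 ↔
    (vl M (sol c M)).rank < dim M := by
  constructor
  · intro h1
    rw [← det_eq_zero_iff, vl, ← eval_det, h1, map_zero]
  · intro h1
    apply MvPolynomial.funext
    intro y
    rw [map_zero, ← aeval_eq_eval, eval_det, det_eq_zero_iff]
    exact (sol_max h y).trans_lt h1

/-- **The decision problem.** -/
theorem alg_iff (c : ℕ) (M : Inp) : alg c M = true ↔ flg c M = true ∧ (pol M).det = 0 := by
  rw [alg, Bool.and_eq_true, decide_eq_true_eq]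
  refine and_congr_right fun h => ?_
  rw [sol_singular h, rnk_et]

end Pool.Agent.L5helper60.MQ
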