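import Mathlib

set_option autoImplicit false

/-!
# Modality of matrices which depend on parameters

Definition only.
-/

namespace Pool.Agent.L5helper60.MQ

/-- The modality of a matrix `F` which depends on complex variables is at most `c`: there is a
countable subfield `K` of the complex numbers such that for all values `y` of the variables there
are invertible matrices `P`, `Q` and an invertible affine substitution `z ↦ G z + b` of the variables
with `P F(z) Q = F(G z + b)` for all `z` such that the numbers `G y + b` are algebraic over the field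
generated by `c` complex numbers over `K`. -/
def Modality {ι ι' κ : Type} [Fintype ι] [Fintype ι'] [Fintype κ] [DecidableEq ι]
    [DecidableEq ι'] [DecidableEq κ] (F : (κ → ℂ) → Matrix ι ι' ℂ) (c : ℕ) : Prop :=
  ∃ K : Subfield ℂ, (K : Set ℂ).Countable ∧ ∀ y : κ → ℂ,
    ∃ (P : Matrix ι ι ℂ) (Q : Matrix ι' ι' ℂ) (G : Matrix κ κ ℂ) (b : κ → ℂ) (s : Fin c → ℂ),
      IsUnit P ∧ IsUnit Q ∧ IsUnit G ∧ (∀ z : κ → ℂ, P * F z * Q = F (G.mulVec z + b)) ∧
      ∀ i, IsAlgebraic (IntermediateField.adjoin K (Set.range s)) ((G.mulVec y + b) i)

end Pool.Agent.L5helper60.MQ
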