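import Pool.Agent.L5helper60.MO.Min
import Pool.Agent.L5helper60.MO.Trv

/-!
# Infinitesimal symmetries of polynomial matrices
-/

set_option autoImplicit false

namespace Pool.Agent.L5helper60.MQ

open Module MvPolynomial
open Pool.Agent.L5helper60.MO (chain)

/-- the unknowns: the entries of `P`, `Q` and of the matrix of the affine vector field -/
abbrev Un (n k : ℕ) := (Fin n × Fin n) ⊕ (Fin n × Fin n) ⊕ (Fin k × Fin (k + 1))

variable {R : Type} [CommRing R] [Algebra ℚ R] {n k : ℕ}

/-- the matrix `P` -/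
def Pm (w : Un n k → R) : Matrix (Fin n) (Fin n) R := Matrix.of fun s u => w (Sum.inl (s, u))
/-- the matrix `Q` -/
def Qm (w : Un n k → R) : Matrix (Fin n) (Fin n) R :=
  Matrix.of fun s u => w (Sum.inr (Sum.inl (s, u)))
/-- the matrix of the vector field -/
def Cm (w : Un n k → R) (i : Fin k) (l : Fin (k + 1)) : R := w (Sum.inr (Sum.inr (i, l)))

/-- the vector of the vector field at a point -/
def dir (x : Fin k → R) : (Un n k → R) →ₗ[R] (Fin k → R) where
  toFun w i := Cm w i 0 + ∑ j, Cm w i j.succ * x j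
  map_add' w w' := by
    funext i
    have h3 : ∀ l, Cm (w + w') i l = Cm w i l + Cm w' i l := fun _ => rfl
    simp only [h3, Pi.add_apply, add_mul, Finset.sum_add_distrib]
    abel
  map_smul' c w := by
    funext i
    have h3 : ∀ l, Cm (c • w) i l = c * Cm w i l := fun _ => rfl
    simp only [h3, Pi.smul_apply, RingHom.id_apply, smul_eq_mul, mul_add, Finset.mul_sum, mul_assoc]

/-- the coordinates, starting with the constant one -/
noncomputable def co (l : Fin (k + 1)) : MvPolynomial (Fin k) ℚ :=
  Fin.cases (motive := fun _ => MvPolynomial (Fin k) ℚ) 1 X l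

/-- the coefficients of the unknowns in the equations -/
noncomputable def el (M : Matrix (Fin n) (Fin n) (MvPolynomial (Fin k) ℚ)) :
    Un n k → Matrix (Fin n) (Fin n) (MvPolynomial (Fin k) ℚ)
  | Sum.inl u => Matrix.of fun s t => if s = u.1 then M u.2 t else 0
  | Sum.inr (Sum.inl u) => Matrix.of fun s t => if t = u.2 then M s u.1 else 0
  | Sum.inr (Sum.inr u) => Matrix.of fun s t => - (co u.2 * pderiv u.1 (M s t))

/-- the derivative of the matrix -/
noncomputable def dM (M : Matrix (Fin n) (Fin n) (MvPolynomial (Fin k) ℚ)) (i : Fin k) :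
    Matrix (Fin n) (Fin n) (MvPolynomial (Fin k) ℚ) := M.map (pderiv i)

/-- the equations -/
lemma el_sum (M : Matrix (Fin n) (Fin n) (MvPolynomial (Fin k) ℚ)) (w : Un n k → R)
    (z : Fin k → R) : ∑ u, w u • (el M u).map (aeval z) =
      Pm w * M.map (aeval z) + M.map (aeval z) * Qm w -
        ∑ i, dir z w i • (dM M i).map (aeval z) := by
  refine Matrix.ext fun s t => ?_
  rw [Matrix.sub_apply, Matrix.add_apply, Matrix.sum_apply, Matrix.sum_apply,
    Matrix.mul_apply, Matrix.mul_apply, Fintype.sum_sum_type, Fintype.sum_sum_type]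
  simp only [Fintype.sum_prod_type, Matrix.smul_apply, Matrix.map_apply, smul_eq_mul, el,
    Matrix.of_apply, Pm, Qm, dM]
  have h1 : ∑ a : Fin n, ∑ b : Fin n, w (Sum.inl (a, b)) *
      aeval z (if s = a then M b t else 0) = ∑ b, w (Sum.inl (s, b)) * aeval z (M b t) := by
    rw [Finset.sum_eq_single s]
    · simp
    · intro a _ ha
      simp [ha.symm]
    · simp
  have h2 : ∑ a : Fin n, ∑ b : Fin n, w (Sum.inr (Sum.inl (a, b))) *
      aeval z (if t = b then M s a else 0) =
        ∑ a, aeval z (M s a) * w (Sum.inr (Sum.inl (a, t))) := by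
    refine Finset.sum_congr rfl fun a _ => ?_
    rw [Finset.sum_eq_single t]
    · simp [mul_comm]
    · intro b _ hb
      simp [hb.symm]
    · simp
  have h3 : ∑ i : Fin k, ∑ l : Fin (k + 1), w (Sum.inr (Sum.inr (i, l))) *
      aeval z (-(co l * pderiv i (M s t))) = - ∑ i, dir z w i * aeval z (pderiv i (M s t)) := by
    rw [← Finset.sum_neg_distrib]
    refine Finset.sum_congr rfl fun i _ => ?_
    have h4 : dir z w i = w (Sum.inr (Sum.inr (i, 0))) +
      ∑ j : Fin k, w (Sum.inr (Sum.inr (i, j.succ))) * z j := rfl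
    rw [Fin.sum_univ_succ, h4, add_mul, neg_add, Finset.sum_mul, ← Finset.sum_neg_distrib]
    have h5 : (co (0 : Fin (k + 1)) : MvPolynomial (Fin k) ℚ) = 1 := rfl
    have h6 : ∀ j : Fin k, co j.succ = (X j : MvPolynomial (Fin k) ℚ) := fun _ => rfl
    congr 1
    · rw [h5]
      simp
    · refine Finset.sum_congr rfl fun j _ => ?_
      rw [h6]
      simp
      ring
  rw [h1, h2, h3]
  ring

/-- the rational infinitesimal symmetries -/
noncomputable def Sol (M : Matrix (Fin n) (Fin n) (MvPolynomial (Fin k) ℚ)) :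
    Submodule ℚ (Un n k → ℚ) :=
  LinearMap.ker (Fintype.linearCombination ℚ (el M))

lemma mem_Sol {M : Matrix (Fin n) (Fin n) (MvPolynomial (Fin k) ℚ)} {w : Un n k → ℚ} :
    w ∈ Sol M ↔ ∑ u, w u • el M u = 0 := by
  rw [Sol, LinearMap.mem_ker, Fintype.linearCombination_apply]

/-- rational infinitesimal symmetries over other rings -/
lemma Sol_map {M : Matrix (Fin n) (Fin n) (MvPolynomial (Fin k) ℚ)} {w : Un n k → ℚ}
    (hw : w ∈ Sol M) (z : Fin k → R) :
    ∑ u, algebraMap ℚ R (w u) • (el M u).map (aeval z) = 0 := by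
  rw [mem_Sol] at hw
  refine Matrix.ext fun s t => ?_
  have h1 := congrFun (congrFun hw s) t
  rw [Matrix.sum_apply] at h1
  have h2 := congrArg (aeval z) h1
  rw [map_sum] at h2
  rw [Matrix.sum_apply]
  simp only [Matrix.smul_apply, Matrix.map_apply, smul_eq_mul]
  have h3 : ∀ u, aeval z ((w u • el M u) s t) = algebraMap ℚ R (w u) * aeval z (el M u s t) := by
    intro u
    rw [Matrix.smul_apply, map_smul, Algebra.smul_def]
  simp only [h3, Matrix.zero_apply, map_zero] at h2
  exact h2

/-- a basis of the rational infinitesimal symmetries -/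
noncomputable def sb (M : Matrix (Fin n) (Fin n) (MvPolynomial (Fin k) ℚ)) :
    Basis (Fin (finrank ℚ (Sol M))) ℚ (Sol M) := Module.finBasis ℚ (Sol M)

/-- **Complex infinitesimal symmetries are combinations of rational ones.** -/
theorem base_change (M : Matrix (Fin n) (Fin n) (MvPolynomial (Fin k) ℚ)) (w : Un n k → ℂ)
    (hw : ∀ z : Fin k → ℂ, ∑ u, w u • (el M u).map (aeval z) = 0) :
    ∃ a : Fin (finrank ℚ (Sol M)) → ℂ,
      ∀ u, w u = ∑ l, a l * (((sb M l : Un n k → ℚ) u : ℚ) : ℂ) := by
  classical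
  let β := Basis.ofVectorSpace ℚ ℂ
  -- the coefficients of the equations
  have h0 : ∀ s t μ, ∑ u, w u * ((coeff μ (el M u s t) : ℚ) : ℂ) = 0 := by
    intro s t μ
    have h1 : ∑ u, C (w u) * MvPolynomial.map (algebraMap ℚ ℂ) (el M u s t) = 0 := by
      apply MvPolynomial.funext
      intro z
      have h2 := congrFun (congrFun (hw z) s) t
      rw [Matrix.sum_apply] at h2
      simp only [Matrix.smul_apply, Matrix.map_apply, smul_eq_mul] at h2
      rw [map_sum, map_zero]
      simp only [map_mul, eval_C, eval_map]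
      exact h2
    have h2 := congrArg (coeff μ) h1
    rw [coeff_sum, coeff_zero] at h2
    simp only [coeff_C_mul, coeff_map] at h2
    exact h2
  -- the coordinates are rational infinitesimal symmetries
  have h1 : ∀ f : ℂ →ₗ[ℚ] ℚ, (fun u => f (w u)) ∈ Sol M := by
    intro f
    rw [mem_Sol]
    refine Matrix.ext fun s t => MvPolynomial.ext _ _ fun μ => ?_
    rw [Matrix.sum_apply, coeff_sum]
    simp only [Matrix.smul_apply, coeff_smul, smul_eq_mul, Matrix.zero_apply, coeff_zero]
    have h2 := congrArg f (h0 s t μ)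
    rw [map_sum, map_zero] at h2
    rw [← h2]
    refine Finset.sum_congr rfl fun u _ => ?_
    have h3 : w u * ((coeff μ (el M u s t) : ℚ) : ℂ) = coeff μ (el M u s t) • w u := by
      rw [Algebra.smul_def, mul_comm]
      rfl
    rw [h3, map_smul, smul_eq_mul, mul_comm]
  choose c hc using fun b => (Submodule.mem_span_range_iff_exists_fun ℚ).1
    ((sb M).mem_span ⟨_, h1 (β.coord b)⟩)
  let s : Finset _ := Finset.univ.biUnion fun u => (β.repr (w u)).support
  refine ⟨fun l => ∑ b ∈ s, (c b l : ℂ) * β b, fun u => ?_⟩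
  have h2 : w u = ∑ b ∈ s, (((β.repr (w u)) b : ℚ) : ℂ) * β b := by
    have h3 := β.linearCombination_repr (w u)
    rw [Finsupp.linearCombination_apply, Finsupp.sum_of_support_subset (s := s)] at h3
    · rw [← h3]
      refine Finset.sum_congr rfl fun b _ => ?_
      rw [h3, Algebra.smul_def]
      rfl
    · exact Finset.subset_biUnion_of_mem (fun u => (β.repr (w u)).support) (Finset.mem_univ u)
    · intro i _
      rw [zero_smul]
  rw [h2]
  simp only [Finset.sum_mul]
  rw [Finset.sum_comm]
  refine Finset.sum_congr rfl fun b _ => ?_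
  have h3 : β.repr (w u) b = ∑ l, c b l * (sb M l : Un n k → ℚ) u := by
    have h4 := congrArg (fun v : Sol M => (v : Un n k → ℚ) u) (hc b)
    simp only [Submodule.coe_sum, Submodule.coe_smul, Finset.sum_apply, Pi.smul_apply,
      smul_eq_mul] at h4
    rw [h4]
    rfl
  rw [h3]
  push_cast
  rw [Finset.sum_mul]
  refine Finset.sum_congr rfl fun l _ => ?_
  ring

end Pool.Agent.L5helper60.MQ
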