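import Pool.Agent.L5helper60.MQ.Pub
import Pool.Agent.L5helper60.MQ.Sym
import Pool.Agent.L5helper60.MO.Tan

/-!
# Tangent vectors at points in general position
-/

set_option autoImplicit false

namespace Pool.Agent.L5helper60.MQ

open MvPolynomial
open Pool.Agent.L5helper60.MO (chain pt exists_transcendental exists_der der_algebraic)

variable {n k : ℕ} {S : Type} [CommRing S] [Algebra ℚ S]

lemma map_mul_der {a b c : Type} [Fintype b] (δ : Derivation ℚ S S) (M : Matrix a b S)
    (N : Matrix b c S) : (M * N).map δ = M.map δ * N + M * N.map δ := by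
  ext i j
  simp only [Matrix.map_apply, Matrix.mul_apply, Matrix.add_apply, map_sum, Derivation.leibniz,
    smul_eq_mul, Finset.sum_add_distrib]
  rw [add_comm]
  congr 1
  refine Finset.sum_congr rfl fun u _ => mul_comm _ _

/-- the chain rule for polynomial matrices -/
lemma chain_matrix (M : Matrix (Fin n) (Fin n) (MvPolynomial (Fin k) ℚ)) (δ : Derivation ℚ S S)
    (z : Fin k → S) : (M.map (aeval z)).map δ = ∑ i, δ (z i) • (dM M i).map (aeval z) := by
  refine Matrix.ext fun s t => ?_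
  rw [Matrix.sum_apply, Matrix.map_apply, Matrix.map_apply, chain]
  refine Finset.sum_congr rfl fun i _ => ?_
  rw [Matrix.smul_apply, smul_eq_mul, mul_comm]
  rfl

/-- the derivatives of a symmetry with respect to the variables -/
lemma symm_deriv {M : Matrix (Fin n) (Fin n) (MvPolynomial (Fin k) ℚ)}
    {P Q : Matrix (Fin n) (Fin n) ℂ} {G : Matrix (Fin k) (Fin k) ℂ} {b : Fin k → ℂ}
    (h : ∀ z : Fin k → ℂ, P * M.map (aeval z) * Q = M.map (aeval (G.mulVec z + b)))
    (z : Fin k → ℂ) (j : Fin k) : P * (dM M j).map (aeval z) * Q =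
      ∑ i, G i j • (dM M i).map (aeval (G.mulVec z + b)) := by
  -- the identity of polynomials
  obtain ⟨φ, hφ⟩ : ∃ φ : Fin k → MvPolynomial (Fin k) ℂ,
      φ = fun i => ∑ j, C (G i j) * X j + C (b i) := ⟨_, rfl⟩
  have hev : ∀ (z : Fin k → ℂ), (fun i => eval z (φ i)) = G.mulVec z + b := by
    intro z
    funext i
    rw [hφ]
    simp [Matrix.mulVec, dotProduct]
  have hcomp : ∀ (z : Fin k → ℂ) (ψ : Fin k → MvPolynomial (Fin k) ℂ)
      (f : MvPolynomial (Fin k) ℚ), eval z (aeval ψ f) = aeval (fun i => eval z (ψ i)) f := by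
    intro z ψ f
    have h1 : ((aeval z : MvPolynomial (Fin k) ℂ →ₐ[ℂ] ℂ).restrictScalars ℚ).comp (aeval ψ) =
        (aeval (fun i => eval z (ψ i)) : MvPolynomial (Fin k) ℚ →ₐ[ℚ] ℂ) := by
      ext i
      simp [aeval_eq_eval]
    rw [← h1]
    rfl
  have hcompM : ∀ (z : Fin k → ℂ) (ψ : Fin k → MvPolynomial (Fin k) ℂ)
      (N : Matrix (Fin n) (Fin n) (MvPolynomial (Fin k) ℚ)),
      (N.map (aeval ψ)).map (eval z) = N.map (aeval fun i => eval z (ψ i)) := by
    intro z ψ N
    ext s t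
    exact hcomp z ψ _
  have hmul : ∀ (z : Fin k → ℂ) (A B : Matrix (Fin n) (Fin n) (MvPolynomial (Fin k) ℂ)),
      (A * B).map (eval z) = A.map (eval z) * B.map (eval z) := by
    intro z A B
    rw [Matrix.map_mul]
  have hC : ∀ (z : Fin k → ℂ) (A : Matrix (Fin n) (Fin n) ℂ),
      (A.map C).map (eval z) = A := by
    intro z A
    ext s t
    simp
  have hX : ∀ z : Fin k → ℂ, (fun i => eval z (X i : MvPolynomial (Fin k) ℂ)) = z := by
    intro z
    funext i
    simp
  have hid : P.map C * M.map (aeval (X : Fin k → MvPolynomial (Fin k) ℂ)) * Q.map C =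
      M.map (aeval φ) := by
    refine Matrix.ext fun s t => ?_
    apply MvPolynomial.funext
    intro z
    have h1 := congrFun (congrFun (h z) s) t
    have h2 : (P.map C * M.map (aeval (X : Fin k → MvPolynomial (Fin k) ℂ)) *
        Q.map C).map (eval z) = (M.map (aeval φ)).map (eval z) := by
      rw [hmul, hmul, hC, hC, hcompM, hcompM, hX, hev, h]
    exact congrFun (congrFun h2 s) t
  -- the derivative
  let δ : Derivation ℚ (MvPolynomial (Fin k) ℂ) (MvPolynomial (Fin k) ℂ) :=
    (pderiv j).restrictScalars ℚ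
  have hδC : ∀ A : Matrix (Fin n) (Fin n) ℂ, (A.map C).map δ = 0 := by
    intro A
    ext1 s t
    exact pderiv_C
  have h1 := congrArg (fun N : Matrix (Fin n) (Fin n) (MvPolynomial (Fin k) ℂ) => N.map δ) hid
  simp only [map_mul_der, hδC, Matrix.zero_mul, Matrix.mul_zero, zero_add, add_zero,
    chain_matrix] at h1
  have h2 : ∑ i, δ (X i : MvPolynomial (Fin k) ℂ) •
      (dM M i).map (aeval (X : Fin k → MvPolynomial (Fin k) ℂ)) = (dM M j).map (aeval X) := by
    rw [Finset.sum_eq_single j]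
    · have : δ (X j : MvPolynomial (Fin k) ℂ) = 1 := pderiv_X_self j
      rw [this, one_smul]
    · intro i _ hi
      have : δ (X i : MvPolynomial (Fin k) ℂ) = 0 := pderiv_X_of_ne hi
      rw [this, zero_smul]
    · simp
  have h3 : ∀ i, δ (φ i) = C (G i j) := by
    intro i
    show pderiv j (φ i) = _
    rw [hφ]
    simp only [map_add, map_sum, pderiv_C, add_zero, Derivation.leibniz, smul_eq_mul, mul_zero]
    rw [Finset.sum_eq_single j]
    · rw [pderiv_X_self, mul_one]
    · intro l _ hl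
      rw [pderiv_X_of_ne hl, mul_zero]
    · simp
  rw [h2] at h1
  simp only [h3] at h1
  have h4 := congrArg (fun N : Matrix (Fin n) (Fin n) (MvPolynomial (Fin k) ℂ) =>
    N.map (eval z)) h1
  simp only [hmul, hC, hcompM, hX] at h4
  rw [h4]
  refine Matrix.ext fun s t => ?_
  rw [Matrix.map_apply, Matrix.sum_apply, Matrix.sum_apply, map_sum]
  refine Finset.sum_congr rfl fun i _ => ?_
  rw [Matrix.smul_apply, Matrix.smul_apply, smul_eq_mul, smul_eq_mul, map_mul, eval_C,
    Matrix.map_apply, Matrix.map_apply, hcomp, hev]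

/-- **A tangent vector of an orbit in the directions of `c + 1` generic coordinates.** -/
theorem tangent (M : Matrix (Fin n) (Fin n) (MvPolynomial (Fin k) ℚ)) {c : ℕ} {K : Subfield ℂ}
    {J : Finset (Fin k)} (hJ : J.card = c + 1) {l : {j // j ∈ J} → ℂ}
    (hl : AlgebraicIndependent K l) (x : Fin k → ℚ)
    (hM : ∃ (P Q : Matrix (Fin n) (Fin n) ℂ) (G : Matrix (Fin k) (Fin k) ℂ) (b : Fin k → ℂ)
      (s : Fin c → ℂ), IsUnit P ∧ IsUnit Q ∧ IsUnit G ∧
      (∀ z : Fin k → ℂ, P * M.map (aeval z) * Q = M.map (aeval (G.mulVec z + b))) ∧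
      ∀ i, IsAlgebraic (IntermediateField.adjoin K (Set.range s))
        ((G.mulVec (pt J x l) + b) i)) :
    ∃ w : Un n k → ℂ, (∀ z : Fin k → ℂ, ∑ u, w u • (el M u).map (aeval z) = 0) ∧
      (∀ i ∉ J, dir (pt J x l) w i = 0) ∧ dir (pt J x l) w ≠ 0 := by
  obtain ⟨P, Q, G, b, s, hP, hQ, hG, h, halg⟩ := hM
  obtain ⟨P', hP1, hP2⟩ := isUnit_iff_exists.1 hP
  obtain ⟨Q', hQ1, hQ2⟩ := isUnit_iff_exists.1 hQ
  obtain ⟨G', hG1, hG2⟩ := isUnit_iff_exists.1 hG
  obtain ⟨i₀, hi₀⟩ := exists_transcendental (by rw [Fintype.card_coe, hJ]) hl s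
  obtain ⟨δ₀, hδ₀⟩ := exists_der (F := IntermediateField.adjoin K (Set.range s)) (T := ℂ)
    (w := fun _ : Unit => l i₀) (algebraicIndependent_unique_type_iff.2 hi₀) ()
  have h1 : δ₀ (l i₀) = 1 := by simpa using hδ₀ ()
  have h2 : ∀ i, δ₀ ((G.mulVec (pt J x l) + b) i) = 0 := fun i => der_algebraic δ₀ (halg i)
  obtain ⟨δ, hδ⟩ : ∃ δ : Derivation ℚ ℂ ℂ, ∀ a, δ a = δ₀ a :=
    ⟨δ₀.restrictScalars ℚ, fun _ => rfl⟩
  simp only [← hδ] at h1 h2
  clear hδ₀ halg hδ
  -- the infinitesimal symmetry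
  obtain ⟨w, hw1, hw2, hw3, hw4⟩ : ∃ w : Un n k → ℂ, Pm w = P' * P.map δ ∧
      Qm w = Q.map δ * Q' ∧ (∀ i, Cm w i 0 = (G'.mulVec (δ ∘ b)) i) ∧
      ∀ i j, Cm w i (Fin.succ j) = (G' * G.map δ) i j :=
    ⟨Sum.elim (fun u => (P' * P.map δ) u.1 u.2) (Sum.elim (fun u => (Q.map δ * Q') u.1 u.2)
      fun u => Fin.cons (α := fun _ => ℂ) ((G'.mulVec (δ ∘ b)) u.1) ((G' * G.map δ) u.1) u.2),
      rfl, rfl, fun _ => rfl, fun _ _ => rfl⟩
  have hdir : ∀ z : Fin k → ℂ, dir z w = G'.mulVec ((G.map δ).mulVec z + δ ∘ b) := by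
    intro z
    funext i
    have h3 : dir z w i = Cm w i 0 + ∑ j, Cm w i j.succ * z j := rfl
    rw [h3, hw3]
    simp only [hw4]
    have h7 : ∑ j, (G' * G.map δ) i j * z j = ((G' * G.map δ).mulVec z) i := rfl
    rw [h7, Matrix.mulVec_add, Matrix.mulVec_mulVec, Pi.add_apply, add_comm]
  have hcan : ∀ N : Matrix (Fin n) (Fin n) ℂ, P * N * Q = 0 → N = 0 := by
    intro N hN
    have : P' * (P * N * Q) * Q' = N := by
      rw [← Matrix.mul_assoc, ← Matrix.mul_assoc, hP2, Matrix.one_mul, Matrix.mul_assoc, hQ1,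
        Matrix.mul_one]
    rw [← this, hN, mul_zero, zero_mul]
  have hw : ∀ z : Fin k → ℂ, ∑ u, w u • (el M u).map (aeval z) = 0 := by
    intro z
    rw [el_sum]
    apply hcan
    -- the derivative of the symmetry
    have h3 := congrArg (fun N : Matrix (Fin n) (Fin n) ℂ => N.map δ) (h z)
    simp only [map_mul_der] at h3
    rw [chain_matrix, chain_matrix] at h3
    have h4 : P * (∑ i, δ (z i) • (dM M i).map (aeval z)) * Q =
        ∑ i, (G.mulVec (δ ∘ z)) i • (dM M i).map (aeval (G.mulVec z + b)) := by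
      simp only [Matrix.mul_sum, Matrix.sum_mul, Matrix.mul_smul, Matrix.smul_mul,
        symm_deriv h, Finset.smul_sum, smul_smul]
      rw [Finset.sum_comm]
      refine Finset.sum_congr rfl fun i _ => ?_
      rw [← Finset.sum_smul]
      congr 1
      show ∑ j, δ (z j) * G i j = ∑ j, G i j * δ (z j)
      exact Finset.sum_congr rfl fun j _ => mul_comm _ _
    have h5 : ∀ i, δ ((G.mulVec z + b) i) =
        (G.mulVec (δ ∘ z)) i + ((G.map δ).mulVec z + δ ∘ b) i := by
      intro i
      have h6 : (G.mulVec z + b) i = ∑ j, G i j * z j + b i := rfl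
      rw [h6, map_add, map_sum]
      simp only [Derivation.leibniz, smul_eq_mul, Finset.sum_add_distrib]
      have h7 : ((G.map δ).mulVec z + δ ∘ b) i = ∑ j, δ (G i j) * z j + δ (b i) := rfl
      have h8 : (G.mulVec (δ ∘ z)) i = ∑ j, G i j * δ (z j) := rfl
      rw [h7, h8, ← add_assoc]
      congr 2
      exact Finset.sum_congr rfl fun j _ => mul_comm _ _
    simp only [h5, add_smul, Finset.sum_add_distrib] at h3
    rw [add_mul, h4] at h3
    have h6 : P.map δ * M.map (aeval z) * Q + P * M.map (aeval z) * Q.map δ =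
        ∑ i, ((G.map δ).mulVec z + δ ∘ b) i • (dM M i).map (aeval (G.mulVec z + b)) := by
      have h7 : P.map δ * M.map (aeval z) * Q + P * M.map (aeval z) * Q.map δ =
          P.map δ * M.map (aeval z) * Q + ∑ i, (G.mulVec (δ ∘ z)) i •
            (dM M i).map (aeval (G.mulVec z + b)) + P * M.map (aeval z) * Q.map δ -
            ∑ i, (G.mulVec (δ ∘ z)) i • (dM M i).map (aeval (G.mulVec z + b)) := by abel
      rw [h7, h3]
      abel
    have h7 : P * (∑ i, dir z w i • (dM M i).map (aeval z)) * Q =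
        ∑ i, ((G.map δ).mulVec z + δ ∘ b) i • (dM M i).map (aeval (G.mulVec z + b)) := by
      simp only [Matrix.mul_sum, Matrix.sum_mul, Matrix.mul_smul, Matrix.smul_mul,
        symm_deriv h, Finset.smul_sum, smul_smul]
      rw [Finset.sum_comm]
      refine Finset.sum_congr rfl fun i _ => ?_
      rw [← Finset.sum_smul]
      congr 1
      have h8 : (G.mulVec (dir z w)) i = ((G.map δ).mulVec z + δ ∘ b) i := by
        rw [hdir, Matrix.mulVec_mulVec, hG1, Matrix.one_mulVec]
      rw [← h8]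
      show ∑ j, dir z w j * G i j = ∑ j, G i j * dir z w j
      exact Finset.sum_congr rfl fun j _ => mul_comm _ _
    rw [mul_sub, sub_mul, h7, ← h6, hw1, hw2]
    have h8 : P * (P' * P.map δ * M.map (aeval z) + M.map (aeval z) * (Q.map δ * Q')) * Q =
        (P * P') * P.map δ * M.map (aeval z) * Q +
          P * M.map (aeval z) * Q.map δ * (Q' * Q) := by
      simp only [mul_add, add_mul, Matrix.mul_assoc]
    rw [h8, hP1, hQ2, Matrix.one_mul, Matrix.mul_one, sub_self]
  have hv : ∀ i, dir (pt J x l) w i = - δ (pt J x l i) := by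
    intro i
    have h4 : G.mulVec (δ ∘ pt J x l) + ((G.map δ).mulVec (pt J x l) + δ ∘ b) = 0 := by
      funext i'
      have h5 := h2 i'
      have h6 : (G.mulVec (pt J x l) + b) i' = ∑ j, G i' j * pt J x l j + b i' := rfl
      rw [h6, map_add, map_sum] at h5
      simp only [Derivation.leibniz, smul_eq_mul, Finset.sum_add_distrib] at h5
      have h6 : ∑ j, pt J x l j * δ (G i' j) = ∑ j, δ (G i' j) * pt J x l j :=
        Finset.sum_congr rfl fun j _ => mul_comm _ _
      rw [h6, add_assoc] at h5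
      exact h5
    have h5 := congrArg G'.mulVec h4
    rw [Matrix.mulVec_add, Matrix.mulVec_mulVec, hG2, Matrix.one_mulVec, ← hdir,
      Matrix.mulVec_zero] at h5
    have h6 := congrFun h5 i
    simp only [Pi.add_apply, Pi.zero_apply, Function.comp_apply] at h6
    linear_combination h6
  refine ⟨w, hw, ?_, ?_⟩
  · intro i hi
    rw [hv, pt, dif_neg hi, Derivation.map_algebraMap, neg_zero]
  · intro h0
    have h3 := congrFun h0 i₀.1
    rw [hv, pt, dif_pos i₀.2, Pi.zero_apply] at h3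
    change - δ (l i₀) = 0 at h3
    rw [h1] at h3
    norm_num at h3

end Pool.Agent.L5helper60.MQ
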